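import Pool.Agent.H256R2.SC.Defs

set_option autoImplicit false

/-! # Sums with the weight `1 / log`: summation by parts -/

namespace Pool.Agent.Y831.RC

open Finset Pool.Agent.H256R2.SC MeasureTheory

theorem int_inv_sq (a b : ℝ) (ha : 0 < a) (hab : a ≤ b) :
    ∫ v in a..b, 1 / v ^ 2 = 1 / a - 1 / b := by
  have h : ∀ x ∈ Set.uIcc a b, HasDerivAt (fun x : ℝ => -(1 / x)) (1 / x ^ 2) x := by
    intro x hx
    rw [Set.uIcc_of_le hab] at hx
    have hx0 : x ≠ 0 := by
      have := hx.1
      intro h
      linarith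
    have h1 := (hasDerivAt_inv hx0).neg
    have h2 : -(-(x ^ 2)⁻¹) = 1 / x ^ 2 := by rw [neg_neg, one_div]
    rw [h2] at h1
    have h3 : (fun x : ℝ => -(1 / x)) = -(fun x : ℝ => x⁻¹) := by
      funext y
      simp
    rw [h3]
    exact h1
  rw [intervalIntegral.integral_eq_sub_of_hasDerivAt h]
  · ring
  · apply ContinuousOn.intervalIntegrable
    apply ContinuousOn.div continuousOn_const (by fun_prop)
    intro x hx
    rw [Set.uIcc_of_le hab] at hx
    have := hx.1
    have : 0 < x := by linarith
    positivity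

theorem cont_inv_sq (a b : ℝ) (ha : 0 < a) : ContinuousOn (fun v : ℝ => 1 / v ^ 2) (Set.Icc a b) := by
  apply ContinuousOn.div continuousOn_const (by fun_prop)
  intro x hx
  have := hx.1
  have : 0 < x := by linarith
  positivity

theorem int_ind (E a b : ℝ) (hE : 0 < E) (ha : 0 < a) :
    ∫ v in Set.Ioc a b, (Set.Ici E).indicator (fun v : ℝ => 1 / v ^ 2) v ≤ 1 / E := by
  rw [setIntegral_indicator measurableSet_Ici]
  set m := max a E with hm
  have hm0 : 0 < m := lt_max_of_lt_left ha
  by_cases hmb : m ≤ b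
  · have h1 : ∫ v in Set.Ioc a b ∩ Set.Ici E, (1 : ℝ) / v ^ 2 ≤ ∫ v in Set.Icc m b, (1 : ℝ) / v ^ 2 := by
      apply setIntegral_mono_set
      · exact (cont_inv_sq m b hm0).integrableOn_Icc
      · refine Filter.Eventually.of_forall fun v => ?_
        show (0 : ℝ) ≤ 1 / v ^ 2
        positivity
      · refine Filter.Eventually.of_forall fun v hv => ?_
        exact ⟨max_le hv.1.1.le hv.2, hv.1.2⟩
    have h2 : ∫ v in Set.Icc m b, (1 : ℝ) / v ^ 2 = 1 / m - 1 / b := by
      rw [integral_Icc_eq_integral_Ioc, ← intervalIntegral.integral_of_le hmb, int_inv_sq m b hm0 hmb]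
    have h3 : 1 / m ≤ 1 / E := one_div_le_one_div_of_le hE (le_max_right _ _)
    have h4 : 0 ≤ 1 / b := by
      have : 0 < b := by linarith
      positivity
    linarith
  · have h1 : Set.Ioc a b ∩ Set.Ici E = ∅ := by
      ext v
      simp only [Set.mem_inter_iff, Set.mem_Ioc, Set.mem_Ici, Set.mem_empty_iff_false, iff_false]
      rintro ⟨⟨h1, h2⟩, h3⟩
      exact hmb ((max_le h1.le h3).trans h2)
    rw [h1]
    simp
    positivity

/-- summation by parts -/
theorem alog_lower {ι : Type} (S : Finset ι) (G E : ι → ℝ) (hG : ∀ i ∈ S, 0 ≤ G i)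
    (hE : ∀ i ∈ S, 0 < E i) (W a b : ℝ) (ha : 0 < a) (hab : a ≤ b)
    (h : ∀ v, a ≤ v → v ≤ b → W * v - 1 ≤ ∑ i ∈ S with E i ≤ v, G i) :
    W * Real.log (b / a) - 1 / a ≤ ∑ i ∈ S, G i / E i := by
  classical
  set f : ι → ℝ → ℝ := fun i => (Set.Ici (E i)).indicator (fun v : ℝ => 1 / v ^ 2) with hf
  have hb : 0 < b := by linarith
  have hint : ∀ i, IntegrableOn (f i) (Set.Ioc a b) := by
    intro i
    apply Integrable.indicator
    · exact ((cont_inv_sq a b ha).integrableOn_Icc).mono_set Set.Ioc_subset_Icc_self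
    · exact measurableSet_Ici
  have h1 : ∫ v in Set.Ioc a b, ∑ i ∈ S, G i * f i v ≤ ∑ i ∈ S, G i / E i := by
    rw [integral_finsetSum S (fun i _ => (hint i).const_mul _)]
    apply Finset.sum_le_sum
    intro i hi
    rw [integral_const_mul, div_eq_mul_one_div]
    exact mul_le_mul_of_nonneg_left (int_ind (E i) a b (hE i hi) ha) (hG i hi)
  refine le_trans ?_ h1
  have h2 : ∫ v in Set.Ioc a b, (W * (1 / v) - 1 / v ^ 2) ≤ ∫ v in Set.Ioc a b, ∑ i ∈ S, G i * f i v := by
    apply setIntegral_mono_on
    · apply IntegrableOn.mono_set _ Set.Ioc_subset_Icc_self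
      apply ContinuousOn.integrableOn_Icc
      apply ContinuousOn.sub
      · apply ContinuousOn.mul continuousOn_const
        apply ContinuousOn.div continuousOn_const continuousOn_id
        intro x hx
        have := hx.1
        have : 0 < x := by linarith
        exact this.ne'
      · exact cont_inv_sq a b ha
    · exact integrable_finsetSum S (fun i _ => (hint i).const_mul _)
    · exact measurableSet_Ioc
    · intro v hv
      have hv0 : 0 < v := by linarith [hv.1]
      have h3 := h v hv.1.le hv.2
      have h4 : ∑ i ∈ S, G i * f i v = (∑ i ∈ S with E i ≤ v, G i) * (1 / v ^ 2) := by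
        rw [Finset.sum_filter, Finset.sum_mul]
        refine Finset.sum_congr rfl fun i _ => ?_
        simp only [hf, Set.indicator, Set.mem_Ici]
        split_ifs <;> simp
      rw [h4]
      have h5 : W * (1 / v) - 1 / v ^ 2 = (W * v - 1) * (1 / v ^ 2) := by
        field_simp
      rw [h5]
      exact mul_le_mul_of_nonneg_right h3 (by positivity)
  refine le_trans ?_ h2
  rw [← intervalIntegral.integral_of_le hab]
  rw [intervalIntegral.integral_sub, intervalIntegral.integral_const_mul, integral_one_div_of_pos ha hb,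
    int_inv_sq a b ha hab]
  · have : 0 ≤ 1 / b := by positivity
    linarith
  · apply ContinuousOn.intervalIntegrable
    apply ContinuousOn.mul continuousOn_const
    apply ContinuousOn.div continuousOn_const continuousOn_id
    intro x hx
    rw [Set.uIcc_of_le hab] at hx
    have := hx.1
    have : 0 < x := by linarith
    exact this.ne'
  · apply ContinuousOn.intervalIntegrable
    rw [Set.uIcc_of_le hab]
    exact cont_inv_sq a b ha

end Pool.Agent.Y831.RC
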