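import Pool.Agent.H256R2.SC.L

set_option autoImplicit false

/-! # Sharp lower bound for the sums over rough squarefree numbers -/

namespace Pool.Agent.Y831.RC

open Finset Pool.Agent.H256R2.SC Pool.Agent.H256R2.SC.LL

open scoped Classical

/-- `∏_{p ≤ y} (1 - 1/p)` -/
noncomputable def WW (y : ℝ) : ℝ := ∏ p ∈ (Finset.Icc 1 ⌊y⌋₊).filter Nat.Prime, (1 - 1 / (p : ℝ))

theorem fac_bd {p : ℕ} (hp : p.Prime) : 0 < 1 - 1 / (p : ℝ) ∧ 1 - 1 / (p : ℝ) ≤ 1 := by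
  have h2 : (2 : ℝ) ≤ p := by exact_mod_cast hp.two_le
  have h3 : 1 / (p : ℝ) ≤ 1 / 2 := one_div_le_one_div_of_le (by norm_num) h2
  have h4 : 0 < 1 / (p : ℝ) := by positivity
  constructor <;> linarith

theorem WW_pos (y : ℝ) : 0 < WW y :=
  Finset.prod_pos fun p hp => (fac_bd (Finset.mem_filter.1 hp).2).1

theorem WW_le_one (y : ℝ) : WW y ≤ 1 :=
  Finset.prod_le_one (fun p hp => (fac_bd (Finset.mem_filter.1 hp).2).1.le)
    fun p hp => (fac_bd (Finset.mem_filter.1 hp).2).2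

/-- the decomposition `m = a l² s` -/
theorem decomp' (P : Finset ℕ) (m : ℕ) (hm : 1 ≤ m) : ∃ a l : ℕ, ∃ s : Finset ℕ,
    a ∈ Nat.factoredNumbers P ∧ 1 ≤ a ∧ 1 ≤ l ∧ (∀ p ∈ s, p.Prime ∧ p ∉ P) ∧
    (∀ q : ℕ, q.Prime → q ∣ l → q ∉ P) ∧
    m = a * l ^ 2 * ∏ p ∈ s, p := by
  set a := ∏ p ∈ m.primeFactors with p ∈ P, p ^ (m.factorization p) with ha
  set b := ∏ p ∈ m.primeFactors with ¬ (p ∈ P), p ^ (m.factorization p) with hb
  have hab : a * b = m := by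
    rw [ha, hb, Finset.prod_filter_mul_prod_filter_not]
    exact Nat.prod_factorization_pow_eq_self (by omega)
  have ha0 : a ≠ 0 := by rintro h; rw [h, zero_mul] at hab; omega
  have hb0 : b ≠ 0 := by rintro h; rw [h, mul_zero] at hab; omega
  have haP : a ∈ Nat.factoredNumbers P := by
    rw [Nat.mem_factoredNumbers']
    intro q hq hqa
    rw [ha, Prime.dvd_finsetProd_iff hq.prime] at hqa
    obtain ⟨p, hp, hqp⟩ := hqa
    rw [Finset.mem_filter, Nat.mem_primeFactors] at hp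
    have := (Nat.prime_dvd_prime_iff_eq hq hp.1.1).1 (hq.dvd_of_dvd_pow hqp)
    rw [this]; exact hp.2
  have hbP : ∀ q : ℕ, q.Prime → q ∣ b → q ∉ P := by
    intro q hq hqb
    rw [hb, Prime.dvd_finsetProd_iff hq.prime] at hqb
    obtain ⟨p, hp, hqp⟩ := hqb
    rw [Finset.mem_filter, Nat.mem_primeFactors] at hp
    have := (Nat.prime_dvd_prime_iff_eq hq hp.1.1).1 (hq.dvd_of_dvd_pow hqp)
    rw [this]; exact hp.2
  obtain ⟨s', l, hl, hs'⟩ := Nat.sq_mul_squarefree b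
  have hl0 : l ≠ 0 := by rintro h; rw [h] at hl; simp at hl; exact hb0 hl.symm
  refine ⟨a, l, s'.primeFactors, haP, Nat.pos_of_ne_zero ha0, Nat.pos_of_ne_zero hl0, ?_, ?_, ?_⟩
  · intro p hp
    rw [Nat.mem_primeFactors] at hp
    exact ⟨hp.1, hbP p hp.1 (hp.2.1.trans ⟨l ^ 2, by rw [← hl]; ring⟩)⟩
  · intro q hq hql
    exact hbP q hq (by rw [← hl, sq]; exact (hql.mul_right l).mul_right s')
  · rw [Nat.prod_primeFactors_of_squarefree hs', mul_assoc, hl, hab]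

theorem sum_sq_tail (M N : ℕ) (hM : 1 ≤ M) : ∑ l ∈ Finset.Icc (M + 1) N, ((l : ℝ) ^ 2)⁻¹ ≤ 1 / M := by
  have h : ∀ N : ℕ, M ≤ N → ∑ l ∈ Finset.Icc (M + 1) N, ((l : ℝ) ^ 2)⁻¹ ≤ 1 / M - 1 / N := by
    intro N hN
    induction N, hN using Nat.le_induction with
    | base => simp
    | succ n hn ih =>
      rw [Finset.sum_Icc_succ_top (by omega)]
      have hn' : (1 : ℝ) ≤ n := by exact_mod_cast hM.trans hn
      have : (((n + 1 : ℕ) : ℝ) ^ 2)⁻¹ ≤ 1 / n - 1 / ((n + 1 : ℕ) : ℝ) := by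
        push_cast
        rw [div_sub_div _ _ (by positivity) (by positivity), inv_eq_one_div,
          div_le_div_iff₀ (by positivity) (by positivity)]
        nlinarith
      linarith
  rcases le_or_gt M N with hN | hN
  · have h1 := h N hN
    have : (0 : ℝ) ≤ 1 / N := by positivity
    linarith
  · rw [Finset.Icc_eq_empty (by omega)]
    simp

/-- the combinatorial inequality -/
theorem main_sharp (y₁ z x : ℝ) (hy : 2 ≤ y₁) (hxz : x ≤ z) (hx : 1 ≤ x) :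
    ∑ m ∈ Finset.Icc 1 ⌊x⌋₊, (m : ℝ)⁻¹ ≤
      (∏ p ∈ Finset.Icc 1 ⌊y₁⌋₊ with p.Prime, (1 - (p : ℝ)⁻¹)⁻¹) * ((1 + 2 / y₁) *
      (1 + ∑ s ∈ ((PS y₁ z ∅).powerset.filter
        (fun s : Finset ℕ => s.Nonempty ∧ ∏ p ∈ s, (p : ℝ) ≤ x)), ∏ p ∈ s, 1 / (p : ℝ))) := by
  set P : Finset ℕ := Finset.Icc 1 ⌊y₁⌋₊ with hPdef
  have hP : ∀ p : ℕ, p.Prime → p ∉ P → y₁ < (p : ℝ) := by
    intro p hp hpP
    rw [hPdef, Finset.mem_Icc] at hpP
    by_contra h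
    push Not at h
    exact hpP ⟨hp.one_lt.le, Nat.le_floor h⟩
  have hdec : ∀ m : ℕ, ∃ t : ℕ × ℕ × Finset ℕ, 1 ≤ m → (t.1 ∈ Nat.factoredNumbers P ∧ 1 ≤ t.1 ∧
      1 ≤ t.2.1 ∧ (∀ p ∈ t.2.2, p.Prime ∧ p ∉ P) ∧ (∀ q : ℕ, q.Prime → q ∣ t.2.1 → q ∉ P) ∧
      m = t.1 * t.2.1 ^ 2 * ∏ p ∈ t.2.2, p) := by
    intro m
    by_cases hm : 1 ≤ m
    · obtain ⟨a, l, s, h⟩ := decomp' P m hm
      exact ⟨(a, l, s), fun _ => h⟩
    · exact ⟨(0, 0, ∅), fun h => absurd h hm⟩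
  choose φ hφ using hdec
  set N := ⌊x⌋₊ with hN
  set A : Finset ℕ := (Finset.Icc 1 N).filter (fun a => a ∈ Nat.factoredNumbers P) with hA
  set LS : Finset ℕ := insert 1 (Finset.Icc (⌊y₁⌋₊ + 1) N) with hLS
  set W : Finset (Finset ℕ) := (PS y₁ z ∅).powerset.filter
    (fun s : Finset ℕ => ∏ p ∈ s, (p : ℝ) ≤ x) with hW
  set F : ℕ × ℕ × Finset ℕ → ℝ := fun t => (t.1 : ℝ)⁻¹ * ((((t.2.1 : ℕ) : ℝ) ^ 2)⁻¹ *
    ∏ p ∈ t.2.2, 1 / (p : ℝ)) with hF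
  have hprod : ∀ m ∈ Finset.Icc 1 N, ∏ p ∈ (φ m).2.2, p ∣ m := by
    intro m hm
    rw [Finset.mem_Icc] at hm
    obtain ⟨_, _, _, _, _, h5⟩ := hφ m hm.1
    exact ⟨(φ m).1 * (φ m).2.1 ^ 2, by conv_lhs => rw [h5]
                                       ring⟩
  have h1 : ∑ m ∈ Finset.Icc 1 N, (m : ℝ)⁻¹ = ∑ m ∈ Finset.Icc 1 N, F (φ m) := by
    refine Finset.sum_congr rfl fun m hm => ?_
    rw [Finset.mem_Icc] at hm
    obtain ⟨_, _, _, _, _, h5⟩ := hφ m hm.1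
    conv_lhs => rw [h5]
    rw [hF]
    push_cast
    simp only [one_div, Finset.prod_inv_distrib]
    rw [mul_inv, mul_inv, mul_assoc]
  have hinj : ∀ m ∈ Finset.Icc 1 N, ∀ m' ∈ Finset.Icc 1 N, φ m = φ m' → m = m' := by
    intro m hm m' hm' h
    rw [Finset.mem_Icc] at hm hm'
    rw [(hφ m hm.1).2.2.2.2.2, (hφ m' hm'.1).2.2.2.2.2, h]
  have h2 : ∑ m ∈ Finset.Icc 1 N, F (φ m) = ∑ t ∈ (Finset.Icc 1 N).image φ, F t :=
    (Finset.sum_image (fun m hm m' hm' h => hinj m hm m' hm' h)).symm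
  have hsub : (Finset.Icc 1 N).image φ ⊆ A ×ˢ (LS ×ˢ W) := by
    intro t ht
    rw [Finset.mem_image] at ht
    obtain ⟨m, hm, rfl⟩ := ht
    have hmm := hm
    rw [Finset.mem_Icc] at hm
    obtain ⟨g1, g2, g3, g4, g6, g5⟩ := hφ m hm.1
    have hmx : (m : ℝ) ≤ x := (Nat.le_floor_iff (by linarith)).1 hm.2
    have d1 : (φ m).1 ∣ m := ⟨(φ m).2.1 ^ 2 * ∏ p ∈ (φ m).2.2, p, by conv_lhs => rw [g5]
                                                                     ring⟩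
    have d2 : (φ m).2.1 ∣ m := ⟨(φ m).1 * (φ m).2.1 * ∏ p ∈ (φ m).2.2, p, by conv_lhs => rw [g5]
                                                                             ring⟩
    rw [Finset.mem_product, Finset.mem_product, hA, Finset.mem_filter, Finset.mem_Icc,
      hLS, Finset.mem_insert, Finset.mem_Icc, hW, Finset.mem_filter, Finset.mem_powerset]
    refine ⟨⟨⟨g2, (Nat.le_of_dvd hm.1 d1).trans hm.2⟩, g1⟩, ?_, ?_, ?_⟩
    · rcases Nat.lt_or_ge 1 (φ m).2.1 with hl | hl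
      · right
        refine ⟨?_, (Nat.le_of_dvd hm.1 d2).trans hm.2⟩
        obtain ⟨q, hq, hql⟩ := Nat.exists_prime_and_dvd (show (φ m).2.1 ≠ 1 by omega)
        have h3 := g6 q hq hql
        rw [hPdef, Finset.mem_Icc] at h3
        have h4 := hq.one_lt.le
        have h5 := Nat.le_of_dvd g3 hql
        by_contra h6
        exact h3 ⟨h4, by omega⟩
      · left
        omega
    · intro p hp
      obtain ⟨hpp, hpP⟩ := g4 p hp
      have q1 := hP p hpp hpP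
      have hpm : p ≤ m := Nat.le_of_dvd hm.1 ((Finset.dvd_prod_of_mem _ hp).trans (hprod m hmm))
      rw [PS, Finset.mem_filter, Finset.mem_Icc]
      refine ⟨⟨hpp.one_lt.le, Nat.le_floor ?_⟩, hpp, q1, Finset.notMem_empty _⟩
      have : (p : ℝ) ≤ m := by exact_mod_cast hpm
      linarith
    · have : ((∏ p ∈ (φ m).2.2, p : ℕ) : ℝ) ≤ m := by
        exact_mod_cast Nat.le_of_dvd hm.1 (hprod m hmm)
      push_cast at this
      linarith
  have h3 : ∑ t ∈ (Finset.Icc 1 N).image φ, F t ≤ ∑ t ∈ A ×ˢ (LS ×ˢ W), F t := by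
    refine Finset.sum_le_sum_of_subset_of_nonneg hsub fun t _ _ => ?_
    rw [hF]; positivity
  have h4 : ∑ t ∈ A ×ˢ (LS ×ˢ W), F t =
      (∑ a ∈ A, (a : ℝ)⁻¹) * ((∑ l ∈ LS, ((l : ℝ) ^ 2)⁻¹) *
        ∑ s ∈ W, ∏ p ∈ s, 1 / (p : ℝ)) := by
    rw [Finset.sum_product, Finset.sum_mul]
    refine Finset.sum_congr rfl fun a _ => ?_
    rw [Finset.sum_product, Finset.sum_mul, Finset.mul_sum]
    refine Finset.sum_congr rfl fun l _ => ?_
    rw [Finset.mul_sum, Finset.mul_sum]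
  have h5 : ∑ s ∈ W, ∏ p ∈ s, 1 / (p : ℝ) = 1 + ∑ s ∈ ((PS y₁ z ∅).powerset.filter
        (fun s : Finset ℕ => s.Nonempty ∧ ∏ p ∈ s, (p : ℝ) ≤ x)), ∏ p ∈ s, 1 / (p : ℝ) := by
    have he : W = insert ∅ ((PS y₁ z ∅).powerset.filter
        (fun s : Finset ℕ => s.Nonempty ∧ ∏ p ∈ s, (p : ℝ) ≤ x)) := by
      ext s
      rw [hW, Finset.mem_insert, Finset.mem_filter, Finset.mem_filter, Finset.mem_powerset]
      constructor
      · rintro ⟨a1, a2⟩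
        rcases Finset.eq_empty_or_nonempty s with h | h
        · exact Or.inl h
        · exact Or.inr ⟨a1, h, a2⟩
      · rintro (rfl | ⟨a1, _, a2⟩)
        · simpa using hx
        · exact ⟨a1, a2⟩
    rw [he, Finset.sum_insert (by simp)]
    simp
  have h6 : 0 ≤ ∑ s ∈ W, ∏ p ∈ s, 1 / (p : ℝ) := Finset.sum_nonneg fun s _ => by positivity
  have h7 : ∑ a ∈ A, (a : ℝ)⁻¹ ≤ ∏ p ∈ P with p.Prime, (1 - (p : ℝ)⁻¹)⁻¹ :=
    euler_le P A fun a ha => (Finset.mem_filter.1 ha).2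
  have h8 : 0 ≤ ∑ a ∈ A, (a : ℝ)⁻¹ := Finset.sum_nonneg fun s _ => by positivity
  have hM1 : 2 ≤ ⌊y₁⌋₊ := Nat.le_floor (by exact_mod_cast hy)
  have h9 : ∑ l ∈ LS, ((l : ℝ) ^ 2)⁻¹ ≤ 1 + 2 / y₁ := by
    have hnot : (1 : ℕ) ∉ Finset.Icc (⌊y₁⌋₊ + 1) N := by
      rw [Finset.mem_Icc]
      omega
    rw [hLS, Finset.sum_insert hnot]
    have e1 := sum_sq_tail ⌊y₁⌋₊ N (by omega)
    have e2 : y₁ / 2 ≤ (⌊y₁⌋₊ : ℝ) := by
      have := Nat.lt_floor_add_one y₁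
      linarith
    have e3 : 1 / (⌊y₁⌋₊ : ℝ) ≤ 1 / (y₁ / 2) := one_div_le_one_div_of_le (by linarith) e2
    have e4 : 1 / (y₁ / 2) = 2 / y₁ := by
      have : y₁ ≠ 0 := by linarith
      field_simp
    simp only [Nat.cast_one, one_pow, inv_one]
    linarith
  rw [h1, h2]
  refine h3.trans ?_
  rw [h4, h5]
  rw [h5] at h6
  refine mul_le_mul h7 (mul_le_mul_of_nonneg_right h9 h6) ?_ (h8.trans h7)
  exact mul_nonneg (Finset.sum_nonneg fun s _ => by positivity) h6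

theorem A_sharp (y₁ z x : ℝ) (hy : 2 ≤ y₁) (hx : 1 ≤ x) (hxz : x ≤ z) :
    WW y₁ * Real.log x ≤ (1 + 2 / y₁) * (1 + ∑ s ∈ ((PS y₁ z ∅).powerset.filter
        (fun s : Finset ℕ => s.Nonempty ∧ ∏ p ∈ s, (p : ℝ) ≤ x)), ∏ p ∈ s, 1 / (p : ℝ)) := by
  have h1 := main_sharp y₁ z x hy hxz hx
  have h2 := harm x hx
  have h3 : WW y₁ * ∏ p ∈ Finset.Icc 1 ⌊y₁⌋₊ with p.Prime, (1 - (p : ℝ)⁻¹)⁻¹ = 1 := by
    unfold WW
    rw [← Finset.prod_mul_distrib]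
    apply Finset.prod_eq_one
    intro p hp
    have := (fac_bd (Finset.mem_filter.1 hp).2).1
    rw [one_div] at this ⊢
    exact mul_inv_cancel₀ this.ne'
  calc WW y₁ * Real.log x ≤ WW y₁ * _ := mul_le_mul_of_nonneg_left (h2.trans h1) (WW_pos y₁).le
    _ = _ := by rw [← mul_assoc, h3, one_mul]

end Pool.Agent.Y831.RC
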