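import Pool.Agent.Y831.RC.ASharp
import Pool.Agent.H318R2.Cr.Prod

set_option autoImplicit false

/-! # Mertens' theorems for the products `WW y` -/

namespace Pool.Agent.Y831.RC

open Finset

theorem WW_eq_V (y : ℝ) : WW y = Pool.Agent.H318R2.Cr.V ⌊y⌋₊ := by
  unfold WW Pool.Agent.H318R2.Cr.V
  have : (Finset.Icc 1 ⌊y⌋₊).filter Nat.Prime = Pool.Agent.H318R2.Cr.Pz ⌊y⌋₊ := by
    ext p
    rw [Pool.Agent.H318R2.Cr.mem_Pz, Finset.mem_filter, Finset.mem_Icc]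
    constructor
    · rintro ⟨⟨_, h⟩, hp⟩; exact ⟨hp, h⟩
    · rintro ⟨hp, h⟩; exact ⟨⟨hp.pos, h⟩, hp⟩
  rw [← this]

theorem floor_facts (y : ℝ) (hy : 2 ≤ y) : 2 ≤ ⌊y⌋₊ ∧ (⌊y⌋₊ : ℝ) ≤ y ∧ 0 < Real.log ⌊y⌋₊ ∧
    Real.log ⌊y⌋₊ ≤ Real.log y ∧ Real.log y ≤ Real.log ⌊y⌋₊ + 1 / ⌊y⌋₊ ∧
    Real.log y ≤ 2 * Real.log ⌊y⌋₊ := by
  have h1 : 2 ≤ ⌊y⌋₊ := Nat.le_floor (by exact_mod_cast hy)
  have h1' : (2 : ℝ) ≤ ⌊y⌋₊ := by exact_mod_cast h1
  have h2 : (⌊y⌋₊ : ℝ) ≤ y := Nat.floor_le (by linarith)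
  have h3 := Nat.lt_floor_add_one y
  have h4 : Real.log y ≤ Real.log ⌊y⌋₊ + 1 / ⌊y⌋₊ := by
    have e1 : Real.log y - Real.log ⌊y⌋₊ = Real.log (y / ⌊y⌋₊) := by
      rw [Real.log_div (by linarith) (by linarith)]
    have e2 : y / ⌊y⌋₊ ≤ 1 + 1 / ⌊y⌋₊ := by
      rw [div_le_iff₀ (by linarith)]
      have : (1 + 1 / (⌊y⌋₊ : ℝ)) * ⌊y⌋₊ = ⌊y⌋₊ + 1 := by
        have : (⌊y⌋₊ : ℝ) ≠ 0 := by linarith
        field_simp
      rw [this]
      exact h3.le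
    have e3 : Real.log (y / ⌊y⌋₊) ≤ y / ⌊y⌋₊ - 1 :=
      Real.log_le_sub_one_of_pos (by positivity)
    linarith
  have h5 : 0 < Real.log ⌊y⌋₊ := Real.log_pos (by linarith)
  refine ⟨h1, h2, h5, Real.log_le_log (by linarith) h2, h4, ?_⟩
  have e1 : y ≤ (⌊y⌋₊ : ℝ) ^ 2 := by nlinarith
  have e2 : Real.log y ≤ Real.log ((⌊y⌋₊ : ℝ) ^ 2) := Real.log_le_log (by linarith) e1
  rw [Real.log_pow] at e2
  push_cast at e2
  exact e2

theorem WW_bounds : ∃ c C : ℝ, 0 < c ∧ c ≤ C ∧ ∀ y : ℝ, 2 ≤ y →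
    c ≤ WW y * Real.log y ∧ WW y * Real.log y ≤ C := by
  obtain ⟨c₁, c₂, hc₁, hc, h⟩ := Pool.Agent.H318R2.Cr.cz_bounds
  refine ⟨c₁, 2 * c₂, hc₁, by linarith, fun y hy => ?_⟩
  obtain ⟨f1, f2, f3, f4, f5, f6⟩ := floor_facts y hy
  obtain ⟨h1, h2⟩ := h ⌊y⌋₊ f1
  rw [WW_eq_V]
  have hV := Pool.Agent.H318R2.Cr.V_pos ⌊y⌋₊
  constructor
  · exact h1.trans (mul_le_mul_of_nonneg_left f4 hV.le)
  · calc Pool.Agent.H318R2.Cr.V ⌊y⌋₊ * Real.log y ≤ Pool.Agent.H318R2.Cr.V ⌊y⌋₊ *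
          (2 * Real.log ⌊y⌋₊) := mul_le_mul_of_nonneg_left f6 hV.le
      _ = 2 * (Pool.Agent.H318R2.Cr.V ⌊y⌋₊ * Real.log ⌊y⌋₊) := by ring
      _ ≤ 2 * c₂ := by linarith

/-- Mertens' second theorem for real end points, upper bound -/
theorem sum_ratio : ∃ C : ℝ, 0 ≤ C ∧ ∀ a b : ℝ, 2 ≤ a → a ≤ b →
    ∑ p ∈ (Finset.Ioc ⌊a⌋₊ ⌊b⌋₊).filter Nat.Prime, (1 : ℝ) / p ≤
      Real.log (Real.log b / Real.log a) + C / Real.log a := by
  obtain ⟨C, hC, h⟩ := Pool.Agent.Helper923.HMertens.mertens_ratio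
  refine ⟨2 * C + 2, by positivity, fun a b ha hab => ?_⟩
  obtain ⟨f1, f2, f3, f4, f5, f6⟩ := floor_facts a ha
  obtain ⟨g1, g2, g3, g4, g5, g6⟩ := floor_facts b (ha.trans hab)
  have h1 := (abs_le.1 (h ⌊a⌋₊ ⌊b⌋₊ f1 (Nat.floor_le_floor hab))).2
  have hla : 0 < Real.log a := by linarith
  have hlb : 0 < Real.log b := by linarith
  have e1 : Real.log (Real.log ⌊b⌋₊ / Real.log ⌊a⌋₊) ≤ Real.log (Real.log b / Real.log ⌊a⌋₊) := by
    apply Real.log_le_log (by positivity)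
    gcongr
  have e2 : Real.log (Real.log b / Real.log ⌊a⌋₊) = Real.log (Real.log b / Real.log a) +
      Real.log (Real.log a / Real.log ⌊a⌋₊) := by
    rw [Real.log_div hlb.ne' f3.ne', Real.log_div hlb.ne' hla.ne', Real.log_div hla.ne' f3.ne']
    ring
  have e3 : Real.log (Real.log a / Real.log ⌊a⌋₊) ≤ Real.log a / Real.log ⌊a⌋₊ - 1 :=
    Real.log_le_sub_one_of_pos (by positivity)
  have f1' : (2 : ℝ) ≤ ⌊a⌋₊ := by exact_mod_cast f1
  have e4 : Real.log a / Real.log ⌊a⌋₊ - 1 ≤ 2 / Real.log a := by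
    have : Real.log a / Real.log ⌊a⌋₊ - 1 = (Real.log a - Real.log ⌊a⌋₊) / Real.log ⌊a⌋₊ := by
      field_simp
    rw [this, div_le_div_iff₀ f3 hla]
    have e5 : 1 / (⌊a⌋₊ : ℝ) ≤ 1 / 2 := one_div_le_one_div_of_le (by norm_num) f1'
    have e6 : Real.log a - Real.log ⌊a⌋₊ ≤ 1 := by linarith
    calc (Real.log a - Real.log ⌊a⌋₊) * Real.log a ≤ 1 * Real.log a :=
          mul_le_mul_of_nonneg_right e6 hla.le
      _ ≤ 2 * Real.log ⌊a⌋₊ := by linarith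
  have e7 : C / Real.log ⌊a⌋₊ ≤ 2 * C / Real.log a := by
    rw [div_le_div_iff₀ f3 hla]
    nlinarith
  have e8 : (2 * C + 2) / Real.log a = 2 * C / Real.log a + 2 / Real.log a := by rw [add_div]
  rw [e8]
  linarith

/-- Mertens' third theorem for quotients, upper bound -/
theorem WW_ratio : ∃ C : ℝ, 0 ≤ C ∧ ∀ a b : ℝ, 2 ≤ a → a ≤ b →
    WW a ≤ WW b * (Real.log b / Real.log a) * Real.exp (C / Real.log a) := by
  obtain ⟨C, hC, h⟩ := sum_ratio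
  refine ⟨C + 4, by positivity, fun a b ha hab => ?_⟩
  have h1 := h a b ha hab
  obtain ⟨f1, f2, f3, f4, f5, f6⟩ := floor_facts a ha
  have hla : 0 < Real.log a := by linarith
  have hlb : 0 < Real.log b := hla.trans_le (Real.log_le_log (by linarith) hab)
  have f1' : (2 : ℝ) ≤ ⌊a⌋₊ := by exact_mod_cast f1
  have hfl : ⌊a⌋₊ ≤ ⌊b⌋₊ := Nat.floor_le_floor hab
  set S := (Finset.Ioc ⌊a⌋₊ ⌊b⌋₊).filter Nat.Prime with hS
  have hsplit : WW b = WW a * ∏ p ∈ S, (1 - 1 / (p : ℝ)) := by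
    unfold WW
    rw [hS, ← Finset.prod_union]
    · congr 1
      rw [← Finset.filter_union]
      congr 1
      ext p
      rw [Finset.mem_union, Finset.mem_Icc, Finset.mem_Icc, Finset.mem_Ioc]
      omega
    · rw [Finset.disjoint_left]
      intro p hp hp'
      rw [Finset.mem_filter, Finset.mem_Icc] at hp
      rw [Finset.mem_filter, Finset.mem_Ioc] at hp'
      omega
  have hpS : ∀ p ∈ S, p.Prime ∧ ⌊a⌋₊ < p := by
    intro p hp
    rw [hS, Finset.mem_filter, Finset.mem_Ioc] at hp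
    exact ⟨hp.2, hp.1.1⟩
  have hsq : ∑ p ∈ S, 1 / (p : ℝ) ^ 2 ≤ 1 / (⌊a⌋₊ : ℝ) := by
    have e1 := sum_sq_tail ⌊a⌋₊ ⌊b⌋₊ (by omega)
    refine le_trans ?_ e1
    calc ∑ p ∈ S, 1 / (p : ℝ) ^ 2 ≤ ∑ p ∈ Finset.Icc (⌊a⌋₊ + 1) ⌊b⌋₊, 1 / (p : ℝ) ^ 2 := by
          apply Finset.sum_le_sum_of_subset_of_nonneg
          · intro p hp
            rw [hS, Finset.mem_filter, Finset.mem_Ioc] at hp
            rw [Finset.mem_Icc]
            omega
          · intro p _ _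
            positivity
      _ = _ := by
          refine Finset.sum_congr rfl fun p _ => ?_
          rw [one_div]
  have hprod : Real.exp (-(∑ p ∈ S, 1 / (p : ℝ)) - 2 * ∑ p ∈ S, 1 / (p : ℝ) ^ 2) ≤
      ∏ p ∈ S, (1 - 1 / (p : ℝ)) := by
    rw [← Finset.sum_neg_distrib, Finset.mul_sum, ← Finset.sum_sub_distrib, Real.exp_sum]
    apply Finset.prod_le_prod
    · intro p _
      exact (Real.exp_pos _).le
    · intro p hp
      have h2 : (2 : ℝ) ≤ p := by exact_mod_cast (hpS p hp).1.two_le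
      have h3 := Pool.Agent.H318R2.Cr.exp_le_one_sub (x := 1 / (p : ℝ)) (by positivity)
        (one_div_le_one_div_of_le (by norm_num) h2)
      have h4 : (1 / (p : ℝ)) ^ 2 = 1 / (p : ℝ) ^ 2 := by rw [one_div_pow]
      rw [h4] at h3
      exact h3
  have hE : -(Real.log (Real.log b / Real.log a) + (C + 4) / Real.log a) ≤
      -(∑ p ∈ S, 1 / (p : ℝ)) - 2 * ∑ p ∈ S, 1 / (p : ℝ) ^ 2 := by
    have e1 : 2 * (1 / (⌊a⌋₊ : ℝ)) ≤ 4 / Real.log a := by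
      have e2 : Real.log a ≤ 2 * ⌊a⌋₊ := by
        have := Real.log_le_sub_one_of_pos (show (0 : ℝ) < ⌊a⌋₊ by linarith)
        linarith
      rw [mul_one_div, div_le_div_iff₀ (by linarith) hla]
      linarith
    rw [add_div]
    linarith
  have h5 : Real.exp (-(Real.log (Real.log b / Real.log a) + (C + 4) / Real.log a)) ≤
      ∏ p ∈ S, (1 - 1 / (p : ℝ)) := (Real.exp_le_exp.2 hE).trans hprod
  have h6 : Real.exp (-(Real.log (Real.log b / Real.log a) + (C + 4) / Real.log a)) *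
      ((Real.log b / Real.log a) * Real.exp ((C + 4) / Real.log a)) = 1 := by
    rw [Real.exp_neg, Real.exp_add, Real.exp_log (by positivity)]
    have := Real.exp_pos ((C + 4) / Real.log a)
    exact inv_mul_cancel₀ (by positivity)
  rw [hsplit]
  have hWa := WW_pos a
  have hR : 0 ≤ (Real.log b / Real.log a) * Real.exp ((C + 4) / Real.log a) := by positivity
  calc WW a = WW a * (Real.exp (-(Real.log (Real.log b / Real.log a) + (C + 4) / Real.log a)) *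
      ((Real.log b / Real.log a) * Real.exp ((C + 4) / Real.log a))) := by rw [h6, mul_one]
    _ ≤ WW a * ((∏ p ∈ S, (1 - 1 / (p : ℝ))) *
      ((Real.log b / Real.log a) * Real.exp ((C + 4) / Real.log a))) := by
        apply mul_le_mul_of_nonneg_left _ hWa.le
        exact mul_le_mul_of_nonneg_right h5 hR
    _ = _ := by ring

end Pool.Agent.Y831.RC
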