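import Pool.Agent.Y831.RC.Tail
import Pool.Agent.H256R2.SC.J
import Pool.Agent.H256R2.SC.S

set_option autoImplicit false
set_option linter.unusedSectionVars false

/-! # The abstract covering sieve with sharp constants (one block of primes) -/

namespace Pool.Agent.Y831.RC

open Finset Pool.Agent.H256R2.SC

variable {n : ℕ} {κ : Type} [Fintype κ] [DecidableEq κ]

theorem core_sharp {α : Type} [DecidableEq α] (𝒜 : Finset α) (col : α → Col n κ)
    {p g : Fin n → ℝ} {h : Finset (Fin n) → ℝ} {z K : ℝ} (H : Hyp p g h z K)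
    (Q δ t N Err η s CB : ℝ) (J : ℕ) (hJ : Even J) (ht : 0 < t) (hN : 0 < N) (hErr : 0 ≤ Err)
    (hQz : 1 ≤ Q) (hη0 : 0 < η) (hη1 : η ≤ 1) (hs : 0 < s)
    (hpz : ∀ i, p i ≤ z) (hg1 : ∀ i, g i ≤ 1) (htg : ∀ i, 3 * t * g i ≤ 1)
    (hug : ∀ i, (Fintype.card κ : ℝ) * g i ≤ 1)
    (hδ : ∀ D : Col n κ, qq p D ≤ Q → 2 * ∑ i with D i ≠ none, g i ≤ δ)
    (hug4 : (Fintype.card κ : ℝ) * δ ≤ 1 / 4)
    (hCB : Q ^ s * Real.exp (2 * (Fintype.card κ : ℝ) * ∑ i, 1 / (p i) ^ s) ≤ CB)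
    (htail : (Fintype.card κ + 1 : ℝ) * (δ ^ 2 + Real.exp (η * ((1 + η) * (Fintype.card κ : ℝ) * K /
      Real.log z - Real.log (Q / z) / Real.log z))) ≤ 1 / 8)
    (hmom : (Fintype.card κ : ℝ) * (1 / t) ^ J * Real.exp ((2 + 6 * t) * ∑ i, g i) ≤ 1 / 8)
    (hcnt : ∀ D : Col n κ, qq p D ≤ Q ^ 2 * z ^ J →
      |((𝒜.filter (fun a => ∀ i, D i ≠ none → col a i = D i)).card : ℝ) - N * nu g D| ≤ Err)
    (hfin : Err * (CB ^ 2 * (1 + Fintype.card κ * (n + 1) ^ J)) < N / 8) :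
    ∃ a ∈ 𝒜, ∀ k, ∃ i, col a i = some k := by
  set u : ℝ := (Fintype.card κ : ℝ) with hu
  have hu0 : 0 ≤ u := Nat.cast_nonneg _
  have hQ0 : 0 < Q := by linarith
  have hz0 : 0 < z := by linarith [H.z1]
  set E : ℝ := Real.exp (η * ((1 + η) * u * K / Real.log z - Real.log (Q / z) / Real.log z)) with hE
  set Z : ℝ := Zs κ g h with hZ
  have hZ1 : 1 ≤ Z := Zs_ge_one H
  have hE0 : 0 < E := Real.exp_pos _
  have hp1 : ∀ i, 1 ≤ p i := fun i => (H.p1 i).le
  have hT : ∑ D : Col n κ with Q / z < qq p D, (yy h D) ^ 2 * nu g D ≤ E * Z :=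
    tail_sharp H η hη0 hη1 (Q / z) (by positivity)
  have hE8 : E ≤ 1 / 8 := by
    have : δ ^ 2 + E ≤ (u + 1) * (δ ^ 2 + E) := by nlinarith [sq_nonneg δ]
    nlinarith [sq_nonneg δ]
  have hT8 : E * Z ≤ 1 / 8 * Z := by nlinarith
  set V : Col n κ → ℝ := VV g (yT p h Q) with hV
  have hlow : 3 / 4 * Z ≤ EE g (fun x => (V x) ^ 2) :=
    second_lower H Q δ (E * Z) hug hδ hug4 hQ0 hT hT8
  have hup : ∀ k, EE g (fun x => (V x) ^ 2 * SS J k x) ≤
      δ ^ 2 * Z + E * Z + (1 / t) ^ J * (Real.exp ((2 + 6 * t) * ∑ i, g i) * Z) := fun k =>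
    second_upper H Q δ t (E * Z) J hJ ht htg hug hQ0 hδ hT k
  set F : Col n κ → ℝ := fun x => V x ^ 2 * (1 - ∑ k, SS J k x) with hF
  have hEF : Z / 2 ≤ EE g F := by
    have e1 : EE g F = EE g (fun x => (V x) ^ 2) - ∑ k, EE g (fun x => (V x) ^ 2 * SS J k x) := by
      rw [← EE_sum, ← EE_sub]
      congr 1
      funext x
      rw [hF]
      simp only
      rw [← Finset.mul_sum]
      ring
    rw [e1]
    have e2 : ∑ k : κ, EE g (fun x => (V x) ^ 2 * SS J k x) ≤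
        u * (δ ^ 2 * Z + E * Z + (1 / t) ^ J * (Real.exp ((2 + 6 * t) * ∑ i, g i) * Z)) := by
      refine (Finset.sum_le_sum (fun k _ => hup k)).trans ?_
      rw [Finset.sum_const, Finset.card_univ, nsmul_eq_mul]
    have e3 : u * (δ ^ 2 * Z + E * Z) ≤ 1 / 8 * Z := by
      have : u * (δ ^ 2 + E) ≤ 1 / 8 := by nlinarith [sq_nonneg δ]
      nlinarith
    have e4 : u * ((1 / t) ^ J * (Real.exp ((2 + 6 * t) * ∑ i, g i) * Z)) ≤ 1 / 8 * Z := by
      nlinarith
    nlinarith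
  -- level of `F`
  have hzJ : (1:ℝ) ≤ z ^ J := one_le_pow₀ H.z1.le
  have hCB0 : 0 ≤ CB := le_trans (by positivity) hCB
  have hVL : Lv p Q CB V := by
    refine Lv_mono le_rfl ((count_sharp (κ := κ) p hp1 s hs Q hQ0).trans hCB) ?_
    refine Lv_VV p g hp1 (fun i => (H.g0 i).le) hg1 (yT p h Q) ?_ Q ?_
    · intro D
      unfold yT
      split_ifs
      · exact yy_abs_le H.h0 H.h1 D
      · simp
    · intro D hD
      by_contra hc
      exact hD (by unfold yT; rw [if_neg hc])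
  have hSL : Lv p (z ^ J) (1 + u * (n + 1) ^ J) (fun x : Col n κ => 1 - ∑ k, SS J k x) := by
    have e1 : Lv p (z ^ J) 1 (fun _ : Col n κ => (1:ℝ)) :=
      Lv_mono hzJ (by simp) (Lv_const p 1)
    have e2 := Lv_sum (p := p) (Q := z ^ J) (univ : Finset κ) (fun _ => ((n:ℝ) + 1) ^ J)
      (fun k => (SS J k : Col n κ → ℝ)) (fun k _ => Lv_SS p hp1 z hpz H.z1.le J k)
    have e3 := Lv_sub e1 e2
    refine Lv_mono le_rfl ?_ e3
    rw [Finset.sum_const, Finset.card_univ, nsmul_eq_mul]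
  have hFL : Lv p (Q ^ 2 * z ^ J) (CB ^ 2 * (1 + u * (n + 1) ^ J)) F := by
    have e1 := Lv_mul hp1 (Lv_mul hp1 hVL hVL) hSL
    have e2 : F = fun x => V x * V x * (1 - ∑ k, SS J k x) := by
      rw [hF]; funext x; ring
    rw [e2]
    refine Lv_mono (le_of_eq (by ring)) (le_of_eq (by ring)) e1
  have htr := transfer 𝒜 col p g N Err _ _ hErr hcnt F hFL
  have hpos : 0 < ∑ a ∈ 𝒜, F (col a) := by
    have e1 := (abs_le.mp htr).1
    have e2 : N / 2 ≤ N * EE g F := by nlinarith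
    linarith
  obtain ⟨a, ha, hFa⟩ : ∃ a ∈ 𝒜, 0 < F (col a) := by
    by_contra hc
    push Not at hc
    exact absurd (Finset.sum_nonpos hc) (not_le.mpr hpos)
  refine ⟨a, ha, fun k => ?_⟩
  by_contra hk
  push Not at hk
  have hV0 : 0 ≤ V (col a) ^ 2 := sq_nonneg _
  have h1 : 0 < 1 - ∑ k, SS J k (col a) := by
    by_contra hc
    push Not at hc
    have : F (col a) ≤ 0 := mul_nonpos_of_nonneg_of_nonpos hV0 hc
    linarith
  have hSS0 : ∀ l, 0 ≤ SS J l (col a) := by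
    intro l
    refine le_trans ?_ (SS_lower J hJ l (col a))
    split_ifs <;> norm_num
  have h2 : SS J k (col a) ≤ ∑ l, SS J l (col a) :=
    Finset.single_le_sum (fun l _ => hSS0 l) (Finset.mem_univ k)
  have h3 := SS_lower J hJ k (col a)
  rw [if_pos hk] at h3
  linarith

/-- the optimal profile `h(s) = c / log ∏ p` -/
theorem exists_h_opt (p g : Fin n → ℝ) (hp : ∀ i, 1 < p i) (hg : ∀ i, 0 < g i) (z A : ℝ)
    (hz : 1 < z) (hA : 0 < A)
    (hAle : A ≤ ∑ s : Finset (Fin n) with s.Nonempty ∧ ∏ i ∈ s, p i ≤ z,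
      (∏ i ∈ s, g i) / Real.log (∏ i ∈ s, p i))
    (hpA : ∀ i, 1 ≤ A * Real.log (p i)) :
    ∃ h, Hyp p g h z (1 / A) := by
  classical
  set A' : ℝ := ∑ s : Finset (Fin n) with s.Nonempty ∧ ∏ i ∈ s, p i ≤ z,
      (∏ i ∈ s, g i) / Real.log (∏ i ∈ s, p i) with hA'
  have hA'0 : 0 < A' := hA.trans_le hAle
  have hA'' : A' = ∑ s : Finset (Fin n) with s.Nonempty, if ∏ i ∈ s, p i ≤ z then
      (∏ i ∈ s, g i) / Real.log (∏ i ∈ s, p i) else 0 := sum_two_filters p z _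
  have hPpos : ∀ s : Finset (Fin n), 0 < ∏ i ∈ s, p i :=
    fun s => Finset.prod_pos (fun i _ => lt_trans one_pos (hp i))
  have hGpos : ∀ s : Finset (Fin n), 0 < ∏ i ∈ s, g i :=
    fun s => Finset.prod_pos (fun i _ => hg i)
  have hP1 : ∀ s : Finset (Fin n), 1 ≤ ∏ i ∈ s, p i := by
    intro s
    calc (1 : ℝ) = ∏ _i ∈ s, (1 : ℝ) := by simp
      _ ≤ ∏ i ∈ s, p i := Finset.prod_le_prod (fun _ _ => zero_le_one) (fun i _ => (hp i).le)
  have hPmono : ∀ s t : Finset (Fin n), s ⊆ t → ∏ i ∈ s, p i ≤ ∏ i ∈ t, p i := by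
    intro s t hst
    rw [← Finset.prod_sdiff hst]
    calc ∏ i ∈ s, p i = 1 * ∏ i ∈ s, p i := (one_mul _).symm
      _ ≤ (∏ i ∈ t \ s, p i) * ∏ i ∈ s, p i :=
        mul_le_mul_of_nonneg_right (hP1 _) (hPpos s).le
  have hlog : ∀ s : Finset (Fin n), s.Nonempty → 0 < Real.log (∏ i ∈ s, p i) ∧
      1 ≤ A' * Real.log (∏ i ∈ s, p i) := by
    intro s hs
    obtain ⟨i, hi⟩ := hs
    have h1 : Real.log (p i) ≤ Real.log (∏ i ∈ s, p i) := by
      apply Real.log_le_log (lt_trans one_pos (hp i))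
      have := hPmono {i} s (Finset.singleton_subset_iff.2 hi)
      simpa using this
    have h2 : 0 < Real.log (p i) := Real.log_pos (hp i)
    refine ⟨by linarith, ?_⟩
    calc 1 ≤ A * Real.log (p i) := hpA i
      _ ≤ A' * Real.log (∏ i ∈ s, p i) := mul_le_mul hAle h1 h2.le hA'0.le
  let h : Finset (Fin n) → ℝ := fun s =>
    if s.Nonempty ∧ ∏ i ∈ s, p i ≤ z then 1 / (A' * Real.log (∏ i ∈ s, p i)) else 0
  have hdef : ∀ s, h s = if s.Nonempty ∧ ∏ i ∈ s, p i ≤ z then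
      1 / (A' * Real.log (∏ i ∈ s, p i)) else 0 := fun s => rfl
  refine ⟨h, ⟨hp, hg, hz, by positivity, ?_, ?_, ?_, ?_, ?_, ?_⟩⟩
  · intro s
    rw [hdef]
    split_ifs with hs
    · have := (hlog s hs.1).1
      positivity
    · exact le_rfl
  · intro s
    rw [hdef]
    split_ifs with hs
    · have h1 := hlog s hs.1
      rw [div_le_one (mul_pos hA'0 h1.1)]
      exact h1.2
    · exact zero_le_one
  · intro s t hs hst
    rw [hdef, hdef]
    by_cases ht : t.Nonempty ∧ ∏ i ∈ t, p i ≤ z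
    · rw [if_pos ht, if_pos ⟨hs, (hPmono s t hst).trans ht.2⟩]
      apply one_div_le_one_div_of_le (mul_pos hA'0 (hlog s hs).1)
      exact mul_le_mul_of_nonneg_left (Real.log_le_log (hPpos s) (hPmono s t hst)) hA'0.le
    · rw [if_neg ht]
      split_ifs
      · have := (hlog s hs).1
        positivity
      · exact le_rfl
  · intro s hs
    rw [hdef] at hs
    by_contra hc
    rw [if_neg (fun h => hc h.2)] at hs
    exact hs rfl
  · have h1 : ∑ s : Finset (Fin n) with s.Nonempty, h s * ∏ i ∈ s, g i =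
        (1 / A') * A' := by
      calc ∑ s : Finset (Fin n) with s.Nonempty, h s * ∏ i ∈ s, g i
          = ∑ s : Finset (Fin n) with s.Nonempty, (1 / A') * (if ∏ i ∈ s, p i ≤ z then
            (∏ i ∈ s, g i) / Real.log (∏ i ∈ s, p i) else 0) := by
            refine Finset.sum_congr rfl fun s hs => ?_
            have hs' := (Finset.mem_filter.1 hs).2
            rw [hdef]
            by_cases hz' : ∏ i ∈ s, p i ≤ z
            · rw [if_pos ⟨hs', hz'⟩, if_pos hz']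
              have := (hlog s hs').1
              field_simp
            · rw [if_neg (fun h => hz' h.2), if_neg hz', zero_mul, mul_zero]
        _ = (1 / A') * A' := by rw [← Finset.mul_sum, ← hA'']
    rw [h1, one_div, inv_mul_cancel₀ hA'0.ne']
  · have h1 : ∑ s : Finset (Fin n) with s.Nonempty,
        (h s) ^ 2 * (∏ i ∈ s, g i) * Real.log (∏ i ∈ s, p i) = (1 / A') ^ 2 * A' := by
      calc ∑ s : Finset (Fin n) with s.Nonempty,
            (h s) ^ 2 * (∏ i ∈ s, g i) * Real.log (∏ i ∈ s, p i)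
          = ∑ s : Finset (Fin n) with s.Nonempty, (1 / A') ^ 2 * (if ∏ i ∈ s, p i ≤ z then
            (∏ i ∈ s, g i) / Real.log (∏ i ∈ s, p i) else 0) := by
            refine Finset.sum_congr rfl fun s hs => ?_
            have hs' := (Finset.mem_filter.1 hs).2
            rw [hdef]
            by_cases hz' : ∏ i ∈ s, p i ≤ z
            · rw [if_pos ⟨hs', hz'⟩, if_pos hz']
              have := (hlog s hs').1
              field_simp
            · rw [if_neg (fun h => hz' h.2), if_neg hz']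
              ring
        _ = (1 / A') ^ 2 * A' := by rw [← Finset.mul_sum, ← hA'']
    rw [h1]
    have h2 : (1 / A') ^ 2 * A' = 1 / A' := by field_simp
    rw [h2]
    exact one_div_le_one_div_of_le hA hAle

end Pool.Agent.Y831.RC
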