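import Pool.Agent.Y831.RC.Run
import Pool.Agent.Y831.RC.Cov2

set_option autoImplicit false
set_option linter.unusedVariables false

/-! # The function `f`: monotonicity, comparison of `f(x^θ)` and `f(x)` -/

namespace Pool.Agent.Y831.RC

open Finset Pool.Agent.H256R2.SC

open scoped Classical

/-- every interval of length `X` contains a run of `c f(X)` integers with a prime factor `≤ X^δ` -/
def RunProp (c₀ : ℝ) : Prop :=
  ∀ c δ : ℝ, 0 < c → c < c₀ → 0 < δ →
    ∃ X₀ : ℝ, ∀ X : ℝ, X₀ ≤ X → ∀ M : ℤ, ∃ n : ℤ, M ≤ n ∧ (n : ℝ) + c * ff X ≤ M + X ∧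
      ∀ k : ℕ, 1 ≤ k → (k : ℝ) ≤ c * ff X → ∃ p : ℕ, p.Prime ∧ (p : ℝ) ≤ X ^ δ ∧
        (p : ℤ) ∣ n + k

theorem run_one : RunProp (1 / 8) := by
  intro c δ hc hc8 hδ
  refine run_of 2 (by norm_num) le_rfl ?_ c δ hc (by linarith) hδ
  intro ε hε hε4
  obtain ⟨X₀, h⟩ := cov2 ε hε hε4
  refine ⟨X₀, fun X hX => ?_⟩
  have := h X hX
  rwa [Real.rpow_two]

theorem ff_mono : ∃ X₀ : ℝ, ∀ X Y : ℝ, X₀ ≤ X → X ≤ Y → 0 < ff X ∧ ff X ≤ ff Y := by
  obtain ⟨X₀, h⟩ := ev4 4
  refine ⟨X₀, fun X Y hX hXY => ?_⟩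
  obtain ⟨m0, m4, m5, m3, m2, m1⟩ := h X hX
  obtain ⟨n0, n4, n5, n3, n2, n1⟩ := h Y (hX.trans hXY)
  unfold ff
  have h1 : Real.log X ≤ Real.log Y := Real.log_le_log (by linarith) hXY
  set L := Real.log X with hL
  set L' := Real.log Y with hL'
  set l := Real.log L with hl
  set l' := Real.log L' with hl'
  set l3 := Real.log l with hl3
  set l3' := Real.log l' with hl3'
  set l4 := Real.log l3 with hl4
  set l4' := Real.log l3' with hl4'
  obtain ⟨a4, a3, a2, a1⟩ := s_pos (by norm_num : (1:ℝ) ≤ 4) m4 m3 m2 m1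
  obtain ⟨b4, b3, b2, b1⟩ := s_pos (by norm_num : (1:ℝ) ≤ 4) n4 n3 n2 n1
  have h2 : l ≤ l' := Real.log_le_log (by linarith) h1
  have h3 : l3 ≤ l3' := Real.log_le_log (by linarith) h2
  have h4 : l4 ≤ l4' := Real.log_le_log (by linarith) h3
  have p3 : 0 < l3 := by linarith
  have p3' : 0 < l3' := by linarith
  have p2 : 0 < l := by linarith
  have p2' : 0 < l' := by linarith
  have he : Real.exp 1 ≤ l := by
    have := Real.exp_one_lt_d9
    linarith
  have h5 : l / l3 ≤ l' / l3' := by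
    have h6 := Real.log_div_self_antitoneOn (a := l) (b := l') he (he.trans h2) h2
    simp only [← hl3, ← hl3'] at h6
    rw [div_le_div_iff₀ p2' p2] at h6
    rw [div_le_div_iff₀ p3 p3']
    linarith
  have h0 : 0 ≤ l / l3 := by positivity
  constructor
  · have : 0 < L := by linarith
    have : 0 < l4 := by linarith
    positivity
  · calc L * l ^ 2 * l4 / l3 ^ 2 = L * (l / l3) ^ 2 * l4 := by field_simp
      _ ≤ L' * (l' / l3') ^ 2 * l4' := by
          apply mul_le_mul _ h4 (by linarith) _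
          · apply mul_le_mul h1 (pow_le_pow_left₀ h0 h5 2) (by positivity) (by linarith)
          · have : 0 < L' := by linarith
            positivity
      _ = L' * l' ^ 2 * l4' / l3' ^ 2 := by field_simp

/-- comparison of `f(x^θ)` and `f(x)` -/
theorem ff_theta (ε : ℝ) (hε : 0 < ε) (hε1 : ε ≤ 1) : ∃ x₀ : ℝ, ∀ x θ : ℝ, x₀ ≤ x →
    ε ≤ θ → θ ≤ 1 → 0 < ff x ∧ (1 - ε) * (θ * ff x) ≤ ff (x ^ θ) := by
  obtain ⟨x₀, h⟩ := ev4 (max 4 (8 / ε * (|Real.log ε| + 2)))
  refine ⟨x₀, fun x θ hx hθ hθ1 => ?_⟩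
  obtain ⟨m0, m4, m5, m3, m2, m1⟩ := h x hx
  have hxpos : 0 < x := by linarith
  have hθ0 : 0 < θ := by linarith
  have hlogx : Real.log (x ^ θ) = θ * Real.log x := Real.log_rpow hxpos θ
  unfold ff
  rw [hlogx]
  set K := max 4 (8 / ε * (|Real.log ε| + 2)) with hK
  have k1 : 4 ≤ K := le_max_left _ _
  have k2 : 8 / ε * (|Real.log ε| + 2) ≤ K := le_max_right _ _
  clear_value K
  set L := Real.log x with hL
  set l := Real.log L with hl
  set l3 := Real.log l with hl3
  set l4 := Real.log l3 with hl4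
  obtain ⟨a4, a3, a2, a1⟩ := s_pos (by linarith : (1:ℝ) ≤ K) m4 m3 m2 m1
  have p4 : 0 < l4 := by linarith
  have p3 : 0 < l3 := by linarith
  have p2 : 0 < l := by linarith
  have p1 : 0 < L := by linarith
  have hA : |Real.log ε| + 2 ≤ ε / 8 * l4 := by
    have : 8 / ε * (|Real.log ε| + 2) ≤ l4 := k2.trans m4
    rw [div_mul_eq_mul_div, div_le_iff₀ hε] at this
    linarith
  have hlogθ : -|Real.log ε| ≤ Real.log θ := by
    have h1 : Real.log ε ≤ Real.log θ := Real.log_le_log hε hθ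
    have := neg_abs_le (Real.log ε)
    linarith
  have hlogθ1 : Real.log θ ≤ 0 := Real.log_nonpos hθ0.le hθ1
  have e1 : Real.log (θ * L) = Real.log θ + l := by
    rw [Real.log_mul hθ0.ne' p1.ne']
  rw [e1]
  have hε8 : ε / 8 * l4 ≤ ε / 8 * l := mul_le_mul_of_nonneg_left (a3.trans a2) (by positivity)
  have e2 : (1 - ε / 8) * l ≤ Real.log θ + l := by linarith
  have e2' : Real.log θ + l ≤ l := by linarith
  have h18 : 1 / 2 ≤ 1 - ε / 8 := by linarith
  have p2' : 0 < Real.log θ + l := lt_of_lt_of_le (by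
    apply mul_pos _ p2
    linarith) e2
  have hl2 : (-1 : ℝ) ≤ Real.log (1 - ε / 8) := by
    have h1 : Real.log (1 / 2) ≤ Real.log (1 - ε / 8) := Real.log_le_log (by norm_num) h18
    have h2 : Real.log (1 / 2) = -Real.log 2 := by rw [one_div, Real.log_inv]
    have h3 := Real.log_two_lt_d9
    linarith
  have e3 : l3 - 1 ≤ Real.log (Real.log θ + l) := by
    have h1 : Real.log ((1 - ε / 8) * l) ≤ Real.log (Real.log θ + l) :=
      Real.log_le_log (by
        apply mul_pos _ p2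
        linarith) e2
    rw [Real.log_mul (by linarith) p2.ne', ← hl3] at h1
    linarith
  have e3' : Real.log (Real.log θ + l) ≤ l3 := Real.log_le_log p2' e2'
  have hl3big : 2 ≤ l3 := by linarith
  have e4 : 1 / 2 * l3 ≤ Real.log (Real.log θ + l) := by linarith
  have p3' : 0 < Real.log (Real.log θ + l) := by linarith
  have e5 : (1 - ε / 8) * l4 ≤ Real.log (Real.log (Real.log θ + l)) := by
    have h1 : Real.log (1 / 2 * l3) ≤ Real.log (Real.log (Real.log θ + l)) :=
      Real.log_le_log (by positivity) e4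
    rw [Real.log_mul (by norm_num) p3.ne', ← hl4, one_div, Real.log_inv] at h1
    have h3 := Real.log_two_lt_d9
    have h4 := abs_nonneg (Real.log ε)
    linarith
  constructor
  · positivity
  · have q1 : 0 ≤ 1 - ε / 8 := by linarith
    have q2 : (1 - ε) ≤ (1 - ε / 8) ^ 2 * (1 - ε / 8) := by
      have h1 := one_add_mul_le_pow (show (-2:ℝ) ≤ -(ε / 8) by linarith) 3
      have h2 : (1 - ε / 8) ^ 2 * (1 - ε / 8) = (1 + -(ε / 8)) ^ 3 := by ring
      rw [h2]
      refine le_trans ?_ h1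
      push_cast
      linarith
    calc (1 - ε) * (θ * (L * l ^ 2 * l4 / l3 ^ 2))
        ≤ ((1 - ε / 8) ^ 2 * (1 - ε / 8)) * (θ * (L * l ^ 2 * l4 / l3 ^ 2)) :=
          mul_le_mul_of_nonneg_right q2 (by positivity)
      _ = θ * L * ((1 - ε / 8) * l) ^ 2 * ((1 - ε / 8) * l4) / l3 ^ 2 := by ring
      _ ≤ θ * L * (Real.log θ + l) ^ 2 * Real.log (Real.log (Real.log θ + l)) /
          Real.log (Real.log θ + l) ^ 2 := by
          have r1 : ((1 - ε / 8) * l) ^ 2 ≤ (Real.log θ + l) ^ 2 :=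
            pow_le_pow_left₀ (by positivity) e2 2
          have r2 : Real.log (Real.log θ + l) ^ 2 ≤ l3 ^ 2 := pow_le_pow_left₀ p3'.le e3' 2
          have r3 : 0 ≤ Real.log (Real.log (Real.log θ + l)) :=
            le_trans (by positivity) e5
          gcongr

/-- the gap around a run of composite numbers -/
theorem gap_at (n : ℕ) (F : ℝ) (hn : 2 ≤ n)
    (hcomp : ∀ k : ℕ, 1 ≤ k → (k : ℝ) ≤ F → ¬ (n + k).Prime) :
    ∃ m : ℕ, Nat.nth Nat.Prime m ≤ n ∧ (n : ℝ) + F < Nat.nth Nat.Prime (m + 1) ∧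
      n < Nat.nth Nat.Prime (m + 1) ∧
      (∀ q : ℕ, q.Prime → q ≤ n → q ≤ Nat.nth Nat.Prime m) ∧
      (∀ q : ℕ, q.Prime → n < q → Nat.nth Nat.Prime (m + 1) ≤ q) := by
  set m1 : ℕ := Nat.count Nat.Prime (n + 1) with hm1
  have hm1pos : 0 < m1 := by
    rw [hm1]
    have := Nat.count_monotone Nat.Prime (show 3 ≤ n + 1 by omega)
    have h2 : Nat.count Nat.Prime 3 = 1 := by decide
    omega
  obtain ⟨m, hm⟩ : ∃ m, m1 = m + 1 := ⟨m1 - 1, by omega⟩
  have h5 : Nat.nth Nat.Prime m < n + 1 := by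
    apply Nat.nth_lt_of_lt_count
    omega
  have h6 : n + 1 ≤ Nat.nth Nat.Prime (m + 1) := by
    rw [← hm]
    exact Nat.le_nth_count Nat.infinite_setOfPred_prime (n + 1)
  have h7 : (Nat.nth Nat.Prime (m + 1)).Prime := Nat.prime_nth_prime _
  obtain ⟨k, hk⟩ : ∃ k, Nat.nth Nat.Prime (m + 1) = n + k := ⟨_, (Nat.add_sub_of_le (by omega)).symm⟩
  have hk1 : 1 ≤ k := by omega
  have h8 : F < k := by
    by_contra h
    push Not at h
    exact hcomp k hk1 h (hk ▸ h7)
  refine ⟨m, by omega, ?_, by omega, ?_, ?_⟩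
  · rw [hk]
    push_cast
    linarith
  · intro q hq hqn
    have e1 : Nat.nth Nat.Prime (Nat.count Nat.Prime q) = q := Nat.nth_count hq
    rw [← e1]
    apply Nat.nth_monotone Nat.infinite_setOfPred_prime
    have e2 : Nat.count Nat.Prime q < Nat.count Nat.Prime (n + 1) :=
      Nat.count_strict_mono hq (by omega)
    omega
  · intro q hq hqn
    have e1 : Nat.nth Nat.Prime (Nat.count Nat.Prime q) = q := Nat.nth_count hq
    rw [← e1]
    apply Nat.nth_monotone Nat.infinite_setOfPred_prime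
    have e2 : Nat.count Nat.Prime (n + 1) ≤ Nat.count Nat.Prime q :=
      Nat.count_monotone Nat.Prime (by omega)
    omega

end Pool.Agent.Y831.RC
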