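import Pool.Agent.Y831.RC.FinA

set_option autoImplicit false
set_option linter.unusedVariables false

/-! # Counting the large gaps -/

namespace Pool.Agent.Y831.RC

open Finset Pool.Agent.H256R2.SC

open scoped Classical

theorem card_blocks (T : Finset ℕ) (W J : ℕ) (hW : 1 ≤ W)
    (hgap : ∀ j < J, (∃ q : ℕ, q.Prime ∧ j * W < q ∧ q ≤ (j + 1) * W) →
      ∃ m ∈ T, j * W < Nat.nth Nat.Prime m ∧ Nat.nth Nat.Prime m ≤ (j + 2) * W) :
    Nat.primeCounting (J * W) ≤ 2 * W * T.card := by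
  set G : Finset ℕ := (range J).filter (fun j => ∃ q : ℕ, q.Prime ∧ j * W < q ∧ q ≤ (j + 1) * W)
    with hG
  have hch : ∀ j : ℕ, ∃ m : ℕ, j ∈ G → (m ∈ T ∧ j * W < Nat.nth Nat.Prime m ∧
      Nat.nth Nat.Prime m ≤ (j + 2) * W) := by
    intro j
    by_cases hj : j ∈ G
    · have hj' := Finset.mem_filter.1 hj
      obtain ⟨m, h1, h2, h3⟩ := hgap j (Finset.mem_range.1 hj'.1) hj'.2
      exact ⟨m, fun _ => ⟨h1, h2, h3⟩⟩
    · exact ⟨0, fun h => absurd h hj⟩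
  choose φ hφ using hch
  have h1 : G.card ≤ 2 * (G.image φ).card := by
    apply Finset.card_le_mul_card_image
    intro m _
    have hsub : G.filter (fun j => φ j = m) ⊆
        {(Nat.nth Nat.Prime m - 1) / W, (Nat.nth Nat.Prime m - 1) / W - 1} := by
      intro j hj
      obtain ⟨hjG, hjm⟩ := Finset.mem_filter.1 hj
      obtain ⟨_, h2, h3⟩ := hφ j hjG
      rw [hjm] at h2 h3
      set p := Nat.nth Nat.Prime m with hp
      have e1 : j ≤ (p - 1) / W := by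
        rw [Nat.le_div_iff_mul_le (by omega)]
        omega
      have e2 : (p - 1) / W < j + 2 := by
        rw [Nat.div_lt_iff_lt_mul (by omega)]
        have : 0 < p := by omega
        omega
      rw [Finset.mem_insert, Finset.mem_singleton]
      omega
    exact (Finset.card_le_card hsub).trans Finset.card_le_two
  have h2 : (G.image φ).card ≤ T.card := by
    apply Finset.card_le_card
    intro m hm
    obtain ⟨j, hj, rfl⟩ := Finset.mem_image.1 hm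
    exact (hφ j hj).1
  have h3 : Nat.primeCounting (J * W) ≤ W * G.card := by
    rw [Nat.primeCounting, Nat.primeCounting', Nat.count_eq_card_filter_range]
    have hsub : (range (J * W + 1)).filter Nat.Prime ⊆
        G.biUnion (fun j => Finset.Ioc (j * W) ((j + 1) * W)) := by
      intro q hq
      obtain ⟨hq1, hq2⟩ := Finset.mem_filter.1 hq
      rw [Finset.mem_range] at hq1
      rw [Finset.mem_biUnion]
      have hq0 := hq2.pos
      set j := (q - 1) / W with hj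
      have e1 : j * W ≤ q - 1 := Nat.div_mul_le_self _ _
      have e2 : q - 1 < (j + 1) * W := by
        rw [← Nat.div_lt_iff_lt_mul (by omega)]
        omega
      have e3 : j < J := by
        rw [hj, Nat.div_lt_iff_lt_mul (by omega)]
        omega
      refine ⟨j, ?_, ?_⟩
      · rw [hG, Finset.mem_filter, Finset.mem_range]
        exact ⟨e3, q, hq2, by omega, by omega⟩
      · rw [Finset.mem_Ioc]
        omega
    refine (Finset.card_le_card hsub).trans (Finset.card_biUnion_le.trans ?_)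
    have : ∀ j ∈ G, (Finset.Ioc (j * W) ((j + 1) * W)).card = W := by
      intro j _
      rw [Nat.card_Ioc]
      have : (j + 1) * W = j * W + W := by ring
      omega
    rw [Finset.sum_congr rfl this, Finset.sum_const, smul_eq_mul, mul_comm]
  calc Nat.primeCounting (J * W) ≤ W * G.card := h3
    _ ≤ W * (2 * T.card) := Nat.mul_le_mul_left _ (h1.trans (Nat.mul_le_mul_left _ h2))
    _ = 2 * W * T.card := by ring

theorem pi_low : ∃ x₀ : ℝ, ∀ x : ℝ, x₀ ≤ x → ∀ T : ℕ, x / 4 ≤ T → (T : ℝ) ≤ x →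
    x / (16 * Real.log x) ≤ Nat.primeCounting T := by
  have h1 : ∀ᶠ x : ℝ in Filter.atTop, Real.log (x + 1) ≤ x / 16 := by
    have e1 := Real.isLittleO_log_id_atTop.def (show (0:ℝ) < 1 / 32 by norm_num)
    have e2 := (Filter.tendsto_atTop_add_const_right Filter.atTop (1:ℝ) Filter.tendsto_id).eventually e1
    filter_upwards [e2, Filter.eventually_ge_atTop (1:ℝ)] with x hx hx1
    simp only [id] at hx
    rw [Real.norm_eq_abs, Real.norm_eq_abs, abs_of_nonneg (Real.log_nonneg (by linarith)),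
      abs_of_nonneg (by linarith)] at hx
    linarith
  obtain ⟨x₀, hx₀⟩ := Filter.eventually_atTop.1 (h1.and (Filter.eventually_ge_atTop (100:ℝ)))
  refine ⟨x₀, fun x hx T hT1 hT2 => ?_⟩
  obtain ⟨g1, g2⟩ := hx₀ x hx
  have hT25 : (25:ℝ) ≤ T := by linarith
  refine le_trans ?_ (Chebyshev.pi_ge T)
  have hlT : 0 < Real.log T := Real.log_pos (by linarith)
  have hlx : 0 < Real.log x := Real.log_pos (by linarith)
  have hle : Real.log T ≤ Real.log x := Real.log_le_log (by linarith) hT2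
  have e1 : Real.log ((T:ℝ) + 1) ≤ x / 16 :=
    (Real.log_le_log (by linarith) (by linarith)).trans g1
  have e2 : x / 4 * (1 / 2) ≤ (T:ℝ) * Real.log 2 := by
    have := Real.log_two_gt_d9
    exact mul_le_mul hT1 (by linarith) (by norm_num) (by linarith)
  have e3 : x / 16 ≤ (T:ℝ) * Real.log 2 - Real.log ((T:ℝ) + 1) := by linarith
  calc x / (16 * Real.log x) = x / 16 / Real.log x := by rw [div_div]
    _ ≤ x / 16 / Real.log T := div_le_div_of_nonneg_left (by linarith) hlT hle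
    _ ≤ _ := div_le_div_of_nonneg_right e3 hlT.le

theorem count_aux (x H X F : ℝ) (W J : ℕ) (hx : 1 ≤ x) (hX1 : 16 ≤ X) (hXW : X ≤ W)
    (hW1 : 1 ≤ W)
    (hJ : (((J + 1) * W : ℕ) : ℝ) ≤ x / 2) (hHF : H ≤ F) (hF0 : 0 ≤ F)
    (hrun : ∀ M : ℤ, ∃ n : ℤ, M ≤ n ∧ (n : ℝ) + F ≤ M + X ∧
      ∀ k : ℕ, 1 ≤ k → (k : ℝ) ≤ F → ∃ p : ℕ, p.Prime ∧ (p : ℝ) ≤ X ^ (1 / 2 : ℝ) ∧
        (p : ℤ) ∣ n + k) :
    (Nat.primeCounting (J * W) : ℝ) ≤ 2 * W * (((range ⌊x⌋₊).filter (fun n : ℕ =>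
      (Nat.nth Nat.Prime (n + 1) : ℝ) ≤ x ∧
        H ≤ (Nat.nth Nat.Prime (n + 1) : ℝ) - Nat.nth Nat.Prime n)).card : ℝ) := by
  have h := card_blocks ((range ⌊x⌋₊).filter (fun n : ℕ => (Nat.nth Nat.Prime (n + 1) : ℝ) ≤ x ∧
        H ≤ (Nat.nth Nat.Prime (n + 1) : ℝ) - Nat.nth Nat.Prime n)) W J hW1 (by
    rintro j hj ⟨q, hq, hq1, hq2⟩
    obtain ⟨n, hn1, hn2, hn3⟩ := hrun (((j + 1) * W : ℕ) : ℤ)
    have hn0 : 0 ≤ n := le_trans (by positivity) hn1
    obtain ⟨n', rfl⟩ := Int.eq_ofNat_of_zero_le hn0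
    have hn1' : (j + 1) * W ≤ n' := by exact_mod_cast hn1
    have hWn : W ≤ n' := le_trans (by nlinarith) hn1'
    have hXn : X ≤ n' := hXW.trans (by exact_mod_cast hWn)
    have hn2' : (n' : ℝ) ≤ ((j + 1) * W : ℕ) + X := by
      have : ((n' : ℤ) : ℝ) = n' := by push_cast; rfl
      have h3 : ((((j + 1) * W : ℕ) : ℤ) : ℝ) = (((j + 1) * W : ℕ) : ℝ) := by push_cast; rfl
      rw [this, h3] at hn2
      linarith
    have hn2'' : n' ≤ (j + 2) * W := by
      have h4 : (n' : ℝ) ≤ (((j + 2) * W : ℕ) : ℝ) := by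
        have h5 : (((j + 2) * W : ℕ) : ℝ) = (((j + 1) * W : ℕ) : ℝ) + W := by push_cast; ring
        rw [h5]
        linarith
      exact_mod_cast h4
    have hn'2 : 2 ≤ n' := by
      have : (2:ℝ) ≤ n' := by linarith
      exact_mod_cast this
    obtain ⟨m, g1, g2, g3, g4, g5⟩ := gap_at n' F hn'2 (by
      intro k hk1 hk2 hprime
      obtain ⟨p, hp, hpX, hpd⟩ := hn3 k hk1 hk2
      have hd : p ∣ n' + k := by
        have : ((p : ℕ) : ℤ) ∣ ((n' + k : ℕ) : ℤ) := by push_cast; exact hpd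
        exact_mod_cast this
      have he := (Nat.prime_dvd_prime_iff_eq hp hprime).1 hd
      have hXs : X ^ (1 / 2 : ℝ) < X := by
        calc X ^ (1 / 2 : ℝ) < X ^ (1 : ℝ) :=
              Real.rpow_lt_rpow_of_exponent_lt (by linarith) (by norm_num)
          _ = X := Real.rpow_one X
      have h6 : (p : ℝ) = n' + k := by rw [he]; push_cast; ring
      have h7 : (0:ℝ) ≤ k := Nat.cast_nonneg _
      linarith)
    -- Bertrand
    have hpm : Nat.nth Nat.Prime (m + 1) ≤ 2 * ((j + 2) * W) := by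
      obtain ⟨r, hr, hr1, hr2⟩ := Nat.exists_prime_lt_and_le_two_mul ((j + 2) * W) (by
        have : 0 < (j + 2) * W := by positivity
        omega)
      exact (g5 r hr (by omega)).trans hr2
    have hpx : (Nat.nth Nat.Prime (m + 1) : ℝ) ≤ x := by
      have e1 : (j + 2) * W ≤ (J + 1) * W := Nat.mul_le_mul_right _ (by omega)
      have e2 : ((Nat.nth Nat.Prime (m + 1) : ℕ) : ℝ) ≤ ((2 * ((J + 1) * W) : ℕ) : ℝ) := by
        exact_mod_cast hpm.trans (Nat.mul_le_mul_left 2 e1)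
      refine e2.trans ?_
      rw [Nat.cast_mul]
      push_cast at hJ ⊢
      linarith
    refine ⟨m, ?_, ?_, ?_⟩
    · rw [Finset.mem_filter, Finset.mem_range]
      refine ⟨?_, hpx, ?_⟩
      · have e1 : m + 1 ≤ Nat.nth Nat.Prime (m + 1) :=
          (Nat.nth_strictMono Nat.infinite_setOfPred_prime).le_apply
        have e2 : Nat.nth Nat.Prime (m + 1) ≤ ⌊x⌋₊ := Nat.le_floor hpx
        omega
      · have e1 : (Nat.nth Nat.Prime m : ℝ) ≤ n' := by exact_mod_cast g1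
        linarith
    · have := g4 q hq (by omega)
      omega
    · exact g1.trans hn2'')
  have h2 : ((Nat.primeCounting (J * W) : ℕ) : ℝ) ≤ ((2 * W * ((range ⌊x⌋₊).filter (fun n : ℕ =>
      (Nat.nth Nat.Prime (n + 1) : ℝ) ≤ x ∧
        H ≤ (Nat.nth Nat.Prime (n + 1) : ℝ) - Nat.nth Nat.Prime n)).card : ℕ) : ℝ) := by
    exact_mod_cast h
  push_cast at h2
  exact h2

/-- large powers against logarithms -/
theorem ev_count (ε : ℝ) (hε : 0 < ε) (hε1 : ε ≤ 1 / 2) (X₁ : ℝ) : ∃ x₀ : ℝ, ∀ x : ℝ, x₀ ≤ x →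
    1 ≤ x ∧ X₁ ≤ x ^ (ε / 2) ∧ 16 ≤ x ^ (ε / 2) ∧ x ^ (1 - ε / 2) ≤ x / 16 ∧
    64 * Real.log x ≤ x ^ (ε / 2) := by
  have t : ∀ s : ℝ, 0 < s → Filter.Tendsto (fun x : ℝ => x ^ s) Filter.atTop Filter.atTop :=
    fun s hs => tendsto_rpow_atTop hs
  have h1 := (t (ε / 2) (by positivity)).eventually_ge_atTop X₁
  have h2 := (t (ε / 2) (by positivity)).eventually_ge_atTop 16
  have h3 : ∀ᶠ x : ℝ in Filter.atTop, 64 * Real.log x ≤ x ^ (ε / 2) := by
    have e1 : (fun x : ℝ => Real.log x) =o[Filter.atTop] (fun x : ℝ => x ^ (ε / 2)) :=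
      isLittleO_log_rpow_atTop (by positivity)
    have e2 := e1.def (show (0:ℝ) < 1 / 64 by norm_num)
    filter_upwards [e2, Filter.eventually_ge_atTop (1:ℝ)] with x hx hx1
    rw [Real.norm_eq_abs, Real.norm_eq_abs, abs_of_nonneg (Real.log_nonneg hx1),
      abs_of_nonneg (Real.rpow_nonneg (by linarith) _)] at hx
    linarith
  obtain ⟨x₀, hx₀⟩ := Filter.eventually_atTop.1
    ((Filter.eventually_ge_atTop (1:ℝ)).and (h1.and (h2.and h3)))
  refine ⟨x₀, fun x hx => ?_⟩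
  obtain ⟨g1, g2, g3, g4⟩ := hx₀ x hx
  refine ⟨g1, g2, g3, ?_, g4⟩
  have hx0 : 0 < x := by linarith
  have e1 : x ^ (1 - ε / 2) * x ^ (ε / 2) = x := by
    rw [← Real.rpow_add hx0]
    ring_nf
    exact Real.rpow_one x
  have e2 : 0 ≤ x ^ (1 - ε / 2) := Real.rpow_nonneg hx0.le _
  rw [le_div_iff₀ (by norm_num)]
  calc x ^ (1 - ε / 2) * 16 ≤ x ^ (1 - ε / 2) * x ^ (ε / 2) := mul_le_mul_of_nonneg_left g3 e2
    _ = x := e1

theorem count_half (c₀ : ℝ) (h0 : 0 < c₀) (h1 : c₀ ≤ 1) (hrun : RunProp c₀) (ε : ℝ) (hε : 0 < ε)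
    (hε1 : ε ≤ 1 / 2) : ∃ x₀ : ℝ, ∀ x : ℝ, x₀ ≤ x → ∀ H : ℝ, 0 ≤ H → H ≤ (1 - ε) * (c₀ * ff x) →
    x ^ (1 - H / (c₀ * ff x) - ε) ≤
      (((range ⌊x⌋₊).filter (fun n : ℕ => (Nat.nth Nat.Prime (n + 1) : ℝ) ≤ x ∧
        H ≤ (Nat.nth Nat.Prime (n + 1) : ℝ) - Nat.nth Nat.Prime n)).card : ℝ) := by
  obtain ⟨X₁, hX₁⟩ := hrun (c₀ * (1 - ε / 8)) (1 / 2) (by apply mul_pos h0; linarith)
    (by
      have : c₀ * (1 - ε / 8) < c₀ * 1 := mul_lt_mul_of_pos_left (by linarith) h0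
      linarith) (by norm_num)
  obtain ⟨x₁, hx₁⟩ := ff_theta (ε / 8) (by positivity) (by linarith)
  obtain ⟨x₂, hx₂⟩ := pi_low
  obtain ⟨x₃, hx₃⟩ := ev_count ε hε hε1 X₁
  refine ⟨max x₁ (max x₂ x₃), fun x hx H hH0 hH => ?_⟩
  obtain ⟨g1, g2, g3, g4, g5⟩ := hx₃ x ((le_max_right _ _).trans ((le_max_right _ _).trans hx))
  have hfpos : 0 < ff x := (hx₁ x 1 ((le_max_left _ _).trans hx) (by linarith) le_rfl).1
  have hcf : 0 < c₀ * ff x := by positivity
  obtain ⟨θ, hθ⟩ : ∃ θ, θ = H / (c₀ * ff x) + ε / 2 := ⟨_, rfl⟩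
  have hHθ : H / (c₀ * ff x) = θ - ε / 2 := by rw [hθ]; ring
  have hr0 : 0 ≤ H / (c₀ * ff x) := by positivity
  have hr1 : H / (c₀ * ff x) ≤ 1 - ε := by
    rw [div_le_iff₀ hcf]
    exact hH
  have hθ0 : ε / 2 ≤ θ := by linarith
  have hθ1 : θ ≤ 1 - ε / 2 := by linarith
  obtain ⟨_, hff⟩ := hx₁ x θ ((le_max_left _ _).trans hx) (by linarith) (by linarith)
  obtain ⟨X, hX⟩ : ∃ X, X = x ^ θ := ⟨_, rfl⟩
  rw [← hX] at hff
  have hx0 : 0 < x := by linarith
  have hXε : x ^ (ε / 2) ≤ X := by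
    rw [hX]
    exact Real.rpow_le_rpow_of_exponent_le g1 hθ0
  have hXx : X ≤ x / 16 := by
    refine le_trans ?_ g4
    rw [hX]
    exact Real.rpow_le_rpow_of_exponent_le g1 hθ1
  have hX16 : 16 ≤ X := g3.trans hXε
  have hF : H ≤ c₀ * (1 - ε / 8) * ff X := by
    have e1 : H = (θ - ε / 2) * (c₀ * ff x) := by
      rw [← hHθ, div_mul_cancel₀ _ hcf.ne']
    have e2 : c₀ * (1 - ε / 8) * ((1 - ε / 8) * (θ * ff x)) ≤ c₀ * (1 - ε / 8) * ff X := by
      apply mul_le_mul_of_nonneg_left hff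
      apply mul_nonneg h0.le
      linarith
    refine le_trans ?_ e2
    rw [e1]
    have e3 : c₀ * (1 - ε / 8) * ((1 - ε / 8) * (θ * ff x)) =
        ((1 - ε / 8) ^ 2 * θ) * (c₀ * ff x) := by ring
    rw [e3]
    apply mul_le_mul_of_nonneg_right _ hcf.le
    have e4 : (1 - ε / 8) ^ 2 * θ = θ - (ε / 4 - ε ^ 2 / 64) * θ := by ring
    rw [e4]
    have e5 : (ε / 4 - ε ^ 2 / 64) * θ ≤ (ε / 4) * 1 := by
      apply mul_le_mul _ (by linarith) (by linarith) (by positivity)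
      have : 0 ≤ ε ^ 2 := sq_nonneg _
      linarith
    linarith
  have hF0 : 0 ≤ c₀ * (1 - ε / 8) * ff X := hH0.trans hF
  set W : ℕ := ⌈X⌉₊ with hW
  have hXW : X ≤ W := Nat.le_ceil X
  have hW2 : (W : ℝ) ≤ 2 * X := by
    have := Nat.ceil_lt_add_one (show 0 ≤ X by linarith)
    linarith
  have hW0 : (0:ℝ) < W := by linarith
  have hW1 : 1 ≤ W := by
    have : (0:ℝ) < W := hW0
    exact_mod_cast this
  set J : ℕ := ⌊x / (2 * W)⌋₊ - 1 with hJ
  have hfl1 : ((⌊x / (2 * W)⌋₊ : ℕ) : ℝ) ≤ x / (2 * W) := Nat.floor_le (by positivity)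
  have hfl2 := Nat.lt_floor_add_one (x / (2 * (W:ℝ)))
  have hq4 : 4 ≤ x / (2 * W) := by
    rw [le_div_iff₀ (by positivity)]
    linarith
  have hfl3 : 1 ≤ ⌊x / (2 * W)⌋₊ := by
    apply Nat.le_floor
    push_cast
    linarith
  have hJ1 : ((J : ℕ) : ℝ) = ((⌊x / (2 * W)⌋₊ : ℕ) : ℝ) - 1 := by
    rw [hJ, Nat.cast_sub hfl3]
    push_cast
    rfl
  have hxW : x / (2 * W) * W = x / 2 := by field_simp
  have hJW : (((J + 1) * W : ℕ) : ℝ) ≤ x / 2 := by
    push_cast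
    rw [hJ1, ← hxW]
    apply mul_le_mul_of_nonneg_right _ hW0.le
    linarith
  have hJWx : ((J * W : ℕ) : ℝ) ≤ x := by
    push_cast at hJW ⊢
    have : (J : ℝ) * W ≤ (J + 1) * W := mul_le_mul_of_nonneg_right (by linarith) hW0.le
    linarith
  have hJW4 : x / 4 ≤ ((J * W : ℕ) : ℝ) := by
    push_cast
    rw [hJ1]
    have e1 : (x / (2 * W) - 2) * W ≤ (((⌊x / (2 * W)⌋₊ : ℕ) : ℝ) - 1) * W := by
      apply mul_le_mul_of_nonneg_right _ hW0.le
      linarith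
    have e2 : (x / (2 * W) - 2) * W = x / 2 - 2 * W := by rw [sub_mul, hxW]
    linarith
  have hpi := hx₂ x ((le_max_left _ _).trans ((le_max_right _ _).trans hx)) (J * W) hJW4 hJWx
  have hcount := count_aux x H X (c₀ * (1 - ε / 8) * ff X) W J g1 hX16 hXW hW1 hJW hF hF0
    (hX₁ X (g2.trans hXε))
  set cnt : ℝ := (((range ⌊x⌋₊).filter (fun n : ℕ => (Nat.nth Nat.Prime (n + 1) : ℝ) ≤ x ∧
        H ≤ (Nat.nth Nat.Prime (n + 1) : ℝ) - Nat.nth Nat.Prime n)).card : ℝ) with hcnt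
  have hcnt0 : 0 ≤ cnt := Nat.cast_nonneg _
  have hlx : 0 < Real.log x := by
    apply Real.log_pos
    linarith
  have e1 : x / (16 * Real.log x) ≤ 4 * X * cnt := by
    refine (hpi.trans hcount).trans ?_
    refine mul_le_mul_of_nonneg_right ?_ hcnt0
    linarith
  have e2 : x ^ (1 - ε / 2) ≤ X * cnt := by
    rw [div_le_iff₀ (by positivity)] at e1
    have e3 : x ^ (1 - ε / 2) * x ^ (ε / 2) = x := by
      rw [← Real.rpow_add hx0]
      ring_nf
      exact Real.rpow_one x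
    have e4 : 0 < x ^ (ε / 2) := Real.rpow_pos_of_pos hx0 _
    have e5 : 0 ≤ X * cnt := mul_nonneg (by linarith) hcnt0
    have e6 : x ^ (1 - ε / 2) * x ^ (ε / 2) ≤ X * cnt * x ^ (ε / 2) := by
      rw [e3]
      calc x ≤ 4 * X * cnt * (16 * Real.log x) := e1
        _ = X * cnt * (64 * Real.log x) := by ring
        _ ≤ X * cnt * x ^ (ε / 2) := mul_le_mul_of_nonneg_left g5 e5
    exact le_of_mul_le_mul_right e6 e4
  have hX0 : 0 < X := by linarith
  have e7 : x ^ (1 - H / (c₀ * ff x) - ε) * X = x ^ (1 - ε / 2) := by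
    rw [hX, ← Real.rpow_add hx0, hHθ]
    congr 1
    ring
  have e8 : x ^ (1 - H / (c₀ * ff x) - ε) * X ≤ cnt * X := by
    rw [e7, mul_comm cnt X]
    exact e2
  exact le_of_mul_le_mul_right e8 hX0

/-- the number of large gaps -/
theorem count_of (c₀ : ℝ) (h0 : 0 < c₀) (h1 : c₀ ≤ 1) (hrun : RunProp c₀) (ε : ℝ) (hε : 0 < ε) :
    ∃ x₀ : ℝ, ∀ x : ℝ, x₀ ≤ x → ∀ H : ℝ, 0 ≤ H → H ≤ (1 - ε) * (c₀ * ff x) →
    x ^ (1 - H / (c₀ * ff x) - ε) ≤
      (((range ⌊x⌋₊).filter (fun n : ℕ => (Nat.nth Nat.Prime (n + 1) : ℝ) ≤ x ∧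
        H ≤ (Nat.nth Nat.Prime (n + 1) : ℝ) - Nat.nth Nat.Prime n)).card : ℝ) := by
  obtain ⟨x₀, h⟩ := count_half c₀ h0 h1 hrun (min ε (1 / 2)) (lt_min hε (by norm_num))
    (min_le_right _ _)
  obtain ⟨x₁, hx₁⟩ := ff_mono
  refine ⟨max x₀ (max x₁ 1), fun x hx H hH0 hH => ?_⟩
  have hfpos := (hx₁ x x ((le_max_left _ _).trans ((le_max_right _ _).trans hx)) le_rfl).1
  have hx1 : 1 ≤ x := (le_max_right _ _).trans ((le_max_right _ _).trans hx)
  have hm : min ε (1 / 2) ≤ ε := min_le_left _ _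
  refine le_trans ?_ (h x ((le_max_left _ _).trans hx) H hH0 (hH.trans ?_))
  · apply Real.rpow_le_rpow_of_exponent_le hx1
    linarith
  · apply mul_le_mul_of_nonneg_right _ (by positivity)
    linarith

/-- infinitely many gaps -/
theorem inf_of (c₀ : ℝ) (hrun : RunProp c₀) (c : ℝ) (hc : 0 < c) (hcc : c < c₀) :
    ∀ N : ℕ, ∃ n : ℕ, N ≤ n ∧ c * ff (Nat.nth Nat.Prime n) ≤
      (Nat.nth Nat.Prime (n + 1) : ℝ) - Nat.nth Nat.Prime n := by
  intro N
  obtain ⟨c', hc1, hc2⟩ := exists_between hcc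
  have hc'0 : 0 < c' := hc.trans hc1
  obtain ⟨r, hr⟩ : ∃ r, r = c / c' := ⟨_, rfl⟩
  have hr0 : 0 < r := by rw [hr]; exact div_pos hc hc'0
  have hr1 : r < 1 := by rw [hr, div_lt_one hc'0]; exact hc1
  have hcr : c = c' * r := by rw [hr]; field_simp
  obtain ⟨X₁, hX₁⟩ := hrun c' (1 / 2) hc'0 hc2 (by norm_num)
  obtain ⟨x₁, hx₁⟩ := ff_mono
  obtain ⟨x₂, hx₂⟩ := ff_theta ((1 - r) / 2) (by linarith) (by linarith)
  obtain ⟨q, hq1, hq⟩ := Nat.exists_infinite_primes (max ⌈x₁⌉₊ (Nat.nth Nat.Prime N))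
  obtain ⟨θ, hθ⟩ : ∃ θ, θ = (1 + r) / 2 := ⟨_, rfl⟩
  have hθ0 : 0 < θ := by rw [hθ]; linarith
  have hθ1 : 0 < 1 - θ := by rw [hθ]; linarith
  have t : ∀ s : ℝ, 0 < s → Filter.Tendsto (fun x : ℝ => x ^ s) Filter.atTop Filter.atTop :=
    fun s hs => tendsto_rpow_atTop hs
  have hev := ((t θ hθ0).eventually_ge_atTop (max X₁ (max 16 q))).and
    (((t (1 - θ) hθ1).eventually_ge_atTop 3).and (Filter.eventually_ge_atTop (max 1 x₂)))
  obtain ⟨x, hx⟩ := hev.exists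
  obtain ⟨g1, g2, g3⟩ := hx
  have hx1 : 1 ≤ x := (le_max_left _ _).trans g3
  have hx0 : 0 < x := by linarith
  obtain ⟨X, hX⟩ : ∃ X, X = x ^ θ := ⟨_, rfl⟩
  rw [← hX] at g1
  have hXX₁ : X₁ ≤ X := (le_max_left _ _).trans g1
  have hX16 : 16 ≤ X := (le_max_left _ _).trans ((le_max_right _ _).trans g1)
  have hXq : (q:ℝ) ≤ X := (le_max_right _ _).trans ((le_max_right _ _).trans g1)
  have h3X : 3 * X ≤ x := by
    have e1 : x ^ (1 - θ) * X = x := by
      rw [hX, ← Real.rpow_add hx0]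
      have : 1 - θ + θ = 1 := by ring
      rw [this, Real.rpow_one]
    calc 3 * X ≤ x ^ (1 - θ) * X := mul_le_mul_of_nonneg_right g2 (by linarith)
      _ = x := e1
  obtain ⟨hfx, hff⟩ := hx₂ x θ ((le_max_right _ _).trans g3) (by rw [hθ]; linarith)
    (by linarith)
  rw [← hX] at hff
  obtain ⟨n, hn1, hn2, hn3⟩ := hX₁ X hXX₁ (⌈X⌉₊ : ℤ)
  have hn0 : 0 ≤ n := le_trans (by positivity) hn1
  obtain ⟨n', rfl⟩ := Int.eq_ofNat_of_zero_le hn0
  have hXn : X ≤ n' := (Nat.le_ceil X).trans (by exact_mod_cast hn1)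
  have hF0 : 0 ≤ c' * ff X := by
    apply mul_nonneg hc'0.le
    refine le_trans ?_ hff
    apply mul_nonneg (by linarith)
    positivity
  have hn2' : (n' : ℝ) ≤ x := by
    have e1 : ((n' : ℤ) : ℝ) = n' := by push_cast; rfl
    have e2 : (((⌈X⌉₊ : ℕ) : ℤ) : ℝ) = ((⌈X⌉₊ : ℕ) : ℝ) := by push_cast; rfl
    rw [e1, e2] at hn2
    have := Nat.ceil_lt_add_one (show 0 ≤ X by linarith)
    linarith
  have hn'2 : 2 ≤ n' := by
    have : (2:ℝ) ≤ n' := by linarith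
    exact_mod_cast this
  obtain ⟨m, k1, k2, k3, k4, k5⟩ := gap_at n' (c' * ff X) hn'2 (by
    intro k hk1 hk2 hprime
    obtain ⟨p, hp, hpX, hpd⟩ := hn3 k hk1 hk2
    have hd : p ∣ n' + k := by
      have : ((p : ℕ) : ℤ) ∣ ((n' + k : ℕ) : ℤ) := by push_cast; exact hpd
      exact_mod_cast this
    have he := (Nat.prime_dvd_prime_iff_eq hp hprime).1 hd
    have hXs : X ^ (1 / 2 : ℝ) < X := by
      calc X ^ (1 / 2 : ℝ) < X ^ (1 : ℝ) :=
            Real.rpow_lt_rpow_of_exponent_lt (by linarith) (by norm_num)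
        _ = X := Real.rpow_one X
    have h6 : (p : ℝ) = n' + k := by rw [he]; push_cast; ring
    have h7 : (0:ℝ) ≤ k := Nat.cast_nonneg _
    linarith)
  have hqn : q ≤ n' := by
    have : (q:ℝ) ≤ n' := hXq.trans hXn
    exact_mod_cast this
  have hqm := k4 q hq hqn
  refine ⟨m, ?_, ?_⟩
  · have e1 : Nat.nth Nat.Prime N ≤ Nat.nth Nat.Prime m :=
      (le_max_right _ _).trans (hq1.trans hqm)
    exact (Nat.nth_le_nth Nat.infinite_setOfPred_prime).1 e1
  · have e1 : x₁ ≤ (Nat.nth Nat.Prime m : ℝ) := by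
      have e2 : ⌈x₁⌉₊ ≤ Nat.nth Nat.Prime m := (le_max_left _ _).trans (hq1.trans hqm)
      exact (Nat.le_ceil x₁).trans (by exact_mod_cast e2)
    have e2 : (Nat.nth Nat.Prime m : ℝ) ≤ n' := by exact_mod_cast k1
    obtain ⟨_, e3⟩ := hx₁ (Nat.nth Nat.Prime m : ℝ) x e1 (e2.trans hn2')
    have e4 : c * ff (Nat.nth Nat.Prime m : ℝ) ≤ c' * ff X := by
      have e5 : c * ff (Nat.nth Nat.Prime m : ℝ) ≤ c * ff x := mul_le_mul_of_nonneg_left e3 hc.le
      have e6 : c' * ((1 - (1 - r) / 2) * (θ * ff x)) ≤ c' * ff X :=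
        mul_le_mul_of_nonneg_left hff hc'0.le
      have e7 : r ≤ (1 - (1 - r) / 2) * θ := by
        rw [hθ]
        nlinarith [sq_nonneg (1 - r)]
      have e8 : c * ff x ≤ c' * ((1 - (1 - r) / 2) * (θ * ff x)) := by
        rw [hcr]
        calc c' * r * ff x = c' * (r * ff x) := by ring
          _ ≤ c' * (((1 - (1 - r) / 2) * θ) * ff x) := by
              apply mul_le_mul_of_nonneg_left _ hc'0.le
              exact mul_le_mul_of_nonneg_right e7 hfx.le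
          _ = _ := by ring
      linarith
    linarith

end Pool.Agent.Y831.RC
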