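import Pool.Agent.Y831.RC.FinB

set_option autoImplicit false
set_option linter.unusedVariables false

/-! # The final form of the theorems, from `RunProp c₀` -/

namespace Pool.Agent.Y831.RC

open Finset Pool.Agent.H256R2.SC

open scoped Classical

theorem fin_run (c₀ : ℝ) (h0 : 0 < c₀) (hrun : RunProp c₀) (ε : ℝ) (hε : 0 < ε) :
    ∃ X₀ : ℝ, ∀ X : ℝ, X₀ ≤ X → ∀ M : ℤ, ∃ n : ℤ, M ≤ n ∧
      (n : ℝ) + (c₀ - ε) * ff X ≤ M + X ∧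
      ∀ k : ℕ, 1 ≤ k → (k : ℝ) ≤ (c₀ - ε) * ff X → ∃ p : ℕ, p.Prime ∧ (p : ℝ) ≤ X ^ ε ∧
        (p : ℤ) ∣ n + k := by
  obtain ⟨X₁, h1⟩ := ff_mono
  obtain ⟨c, hc, hcc, hcε⟩ : ∃ c, 0 < c ∧ c < c₀ ∧ c₀ - ε ≤ c := by
    refine ⟨max (c₀ / 2) (c₀ - ε), lt_max_of_lt_left (by linarith), max_lt (by linarith)
      (by linarith), le_max_right _ _⟩
  obtain ⟨X₂, h2⟩ := hrun c ε hc hcc hε
  refine ⟨max X₁ X₂, fun X hX M => ?_⟩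
  have hf := (h1 X X ((le_max_left _ _).trans hX) le_rfl).1
  obtain ⟨n, hn1, hn2, hn3⟩ := h2 X ((le_max_right _ _).trans hX) M
  have h4 : (c₀ - ε) * ff X ≤ c * ff X := mul_le_mul_of_nonneg_right hcε hf.le
  exact ⟨n, hn1, by linarith, fun k hk1 hk2 => hn3 k hk1 (hk2.trans h4)⟩

theorem fin_count (c₀ : ℝ) (h0 : 0 < c₀) (h1 : c₀ ≤ 1) (hrun : RunProp c₀) (ε : ℝ)
    (hε : 0 < ε) :
    ∃ x₀ : ℝ, ∀ x : ℝ, x₀ ≤ x → ∀ H : ℝ, 0 ≤ H → H ≤ (c₀ - ε) * ff x →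
    x ^ (1 - H / (c₀ * ff x) - ε) ≤
      (((range ⌊x⌋₊).filter (fun n : ℕ => (Nat.nth Nat.Prime (n + 1) : ℝ) ≤ x ∧
        H ≤ (Nat.nth Nat.Prime (n + 1) : ℝ) - Nat.nth Nat.Prime n)).card : ℝ) := by
  obtain ⟨X₁, hX₁⟩ := ff_mono
  obtain ⟨x₀, hx₀⟩ := count_of c₀ h0 h1 hrun ε hε
  refine ⟨max X₁ x₀, fun x hx H hH0 hH => ?_⟩
  have hf := (hX₁ x x ((le_max_left _ _).trans hx) le_rfl).1
  refine hx₀ x ((le_max_right _ _).trans hx) H hH0 (hH.trans ?_)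
  have h3 : c₀ * ε ≤ ε := by nlinarith
  calc (c₀ - ε) * ff x ≤ (c₀ - c₀ * ε) * ff x :=
        mul_le_mul_of_nonneg_right (by linarith) hf.le
    _ = _ := by ring

theorem fin_inf (c₀ : ℝ) (h0 : 0 < c₀) (hrun : RunProp c₀) (ε : ℝ) (hε : 0 < ε) :
    ∀ N : ℕ, ∃ n : ℕ, N ≤ n ∧ (c₀ - ε) * ff (Nat.nth Nat.Prime n) ≤
      (Nat.nth Nat.Prime (n + 1) : ℝ) - Nat.nth Nat.Prime n := by
  intro N
  obtain ⟨X₁, h1⟩ := ff_mono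
  obtain ⟨c, hc, hcc, hcε⟩ : ∃ c, 0 < c ∧ c < c₀ ∧ c₀ - ε ≤ c := by
    refine ⟨max (c₀ / 2) (c₀ - ε), lt_max_of_lt_left (by linarith), max_lt (by linarith)
      (by linarith), le_max_right _ _⟩
  obtain ⟨n, hn, h2⟩ := inf_of c₀ hrun c hc hcc (max N ⌈X₁⌉₊)
  refine ⟨n, (le_max_left _ _).trans hn, le_trans ?_ h2⟩
  have h3 : n ≤ Nat.nth Nat.Prime n := Nat.le_nth (fun hf => absurd hf Nat.infinite_setOfPred_prime)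
  have h4 : X₁ ≤ (Nat.nth Nat.Prime n : ℝ) := by
    have h5 : (⌈X₁⌉₊ : ℝ) ≤ (Nat.nth Nat.Prime n : ℝ) := by
      exact_mod_cast ((le_max_right _ _).trans hn).trans h3
    exact (Nat.le_ceil X₁).trans h5
  have hf := (h1 _ _ h4 le_rfl).1
  exact mul_le_mul_of_nonneg_right hcε hf.le

end Pool.Agent.Y831.RC
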