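import Pool.Agent.Y831.RC.Apply
import Pool.Agent.Y831.RC.Surv2

set_option autoImplicit false
set_option linter.unusedVariables false

/-! # From the covering theorem to runs of integers with small prime factors -/

namespace Pool.Agent.Y831.RC

open Finset Pool.Agent.H256R2.SC

open scoped Classical

/-- the arithmetic core -/
theorem run_arith {w X δ ε x F : ℝ} {a : ℕ → ℕ} (hcov : CovAt w X δ ε) (hx0 : 0 ≤ x)
    (hxw : x ≤ w) (ha : ∀ p : ℕ, p.Prime → (p : ℝ) ≤ x → a p < p) (hF0 : 0 ≤ F) (hFw : F ≤ w)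
    (hU : (((Finset.Icc 1 ⌊F⌋₊).filter (fun k => ∀ p : ℕ, p.Prime → (p : ℝ) ≤ x →
        ¬ k ≡ a p [MOD p])).card : ℝ) ≤
      (1 / 2 - ε) * (Real.log X * Real.log (Real.log X) * WW w))
    (M : ℤ) (hlen : X ^ (1 - δ) ≤ (X - F) / (primorial ⌊x⌋₊ : ℝ) - 1) (hxδ : x ≤ X ^ δ) :
    ∃ n : ℤ, M ≤ n ∧ (n : ℝ) + F ≤ M + X ∧
      ∀ k : ℕ, 1 ≤ k → (k : ℝ) ≤ F → ∃ p : ℕ, p.Prime ∧ (p : ℝ) ≤ X ^ δ ∧ (p : ℤ) ∣ n + k := by
  set P : ℕ := primorial ⌊x⌋₊ with hPdef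
  have hPpos : 0 < P := primorial_pos _
  have hPr : (0 : ℝ) < P := by exact_mod_cast hPpos
  obtain ⟨b0, hb0, hb0'⟩ := LG.exists_crt ⌊x⌋₊ (fun p => p - a p)
  have hfloor : ∀ p : ℕ, p ≤ ⌊x⌋₊ ↔ (p : ℝ) ≤ x := fun p => Nat.le_floor_iff hx0
  have hdvdP : ∀ p : ℕ, p.Prime → (p : ℝ) ≤ x → p ∣ P := fun p hp hpy =>
    (hp.dvd_primorial_iff).2 ((hfloor p).2 hpy)
  have hndvdP : ∀ p : ℕ, p.Prime → w < p → ¬ p ∣ P := by
    intro p hp hpX h
    have := (hfloor p).1 ((hp.dvd_primorial_iff).1 h)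
    linarith
  have hb0b : ∀ p : ℕ, p.Prime → (p : ℝ) ≤ x → p ∣ b0 + a p := by
    intro p hp hpy
    have h1 := hb0' p hp ((hfloor p).2 hpy)
    have h2 := ha p hp hpy
    have h3 : b0 + a p ≡ (p - a p) + a p [MOD p] := h1.add_right _
    rw [Nat.sub_add_cancel h2.le] at h3
    exact (Nat.modEq_zero_iff_dvd).1 (h3.trans (by simp [Nat.ModEq]))
  -- inverses
  have hinv : ∀ p : ℕ, ∃ i : ℤ, p.Prime → ¬ p ∣ P → (p : ℤ) ∣ P * i - 1 := by
    intro p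
    by_cases h : p.Prime ∧ ¬ p ∣ P
    · obtain ⟨i, hi⟩ := LG.inv_exists h.1 h.2
      exact ⟨i, fun _ _ => hi⟩
    · exact ⟨0, fun h1 h2 => absurd ⟨h1, h2⟩ h⟩
  choose ip hip using hinv
  set U : Finset ℕ := (Finset.Icc 1 ⌊F⌋₊).filter (fun k => ∀ p : ℕ, p.Prime → (p : ℝ) ≤ x →
        ¬ k ≡ a p [MOD p]) with hUdef
  obtain ⟨m, hmA, hmB, hm⟩ := hcov U (by simpa using hU)
    (fun p k => -((b0 : ℤ) + ((k : ℕ) : ℤ)) * ip p) (by
      intro p hp hp1 _ k l hkl hdvd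
      have h1 := hip p hp (hndvdP p hp hp1)
      have h2 : (p : ℤ) ∣ ((l : ℕ) : ℤ) - ((k : ℕ) : ℤ) := by
        have h3 : (p : ℤ) ∣ (P : ℤ) * (-((b0 : ℤ) + ((k : ℕ) : ℤ)) * ip p -
            -((b0 : ℤ) + ((l : ℕ) : ℤ)) * ip p) := hdvd.mul_left _
        have h4 : (p : ℤ) ∣ (((l : ℕ) : ℤ) - ((k : ℕ) : ℤ)) * ((P : ℤ) * ip p - 1) := h1.mul_left _
        have h5 := dvd_sub h3 h4
        have h6 : (P : ℤ) * (-((b0 : ℤ) + ((k : ℕ) : ℤ)) * ip p -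
            -((b0 : ℤ) + ((l : ℕ) : ℤ)) * ip p) -
            (((l : ℕ) : ℤ) - ((k : ℕ) : ℤ)) * ((P : ℤ) * ip p - 1) =
            ((l : ℕ) : ℤ) - ((k : ℕ) : ℤ) := by ring
        rwa [h6] at h5
      have hk := mem_Icc.1 (mem_filter.1 k.2).1
      have hl := mem_Icc.1 (mem_filter.1 l.2).1
      have hpL : ⌊F⌋₊ < p := by
        have : (⌊F⌋₊ : ℝ) < p := lt_of_le_of_lt ((Nat.floor_le hF0).trans hFw) hp1
        exact_mod_cast this
      have h7 : ((l : ℕ) : ℤ) - ((k : ℕ) : ℤ) = 0 := by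
        apply Int.eq_zero_of_abs_lt_dvd h2
        rw [abs_lt]
        constructor <;> omega
      apply hkl
      apply Subtype.ext
      omega)
    ⌊((M : ℝ) - b0) / P⌋ ⌊((M : ℝ) + X - F - b0) / P⌋ (by
      refine hlen.trans ?_
      have e1 := Int.floor_le (((M : ℝ) - b0) / P)
      have e2 := Int.lt_floor_add_one (((M : ℝ) + X - F - b0) / P)
      have e3 : ((M : ℝ) + X - F - b0) / P = ((M : ℝ) - b0) / P + (X - F) / P := by
        field_simp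
        ring
      linarith)
  have hm1 : ((M : ℝ) - b0) / P < m := by
    have := Int.lt_floor_add_one (((M : ℝ) - b0) / P)
    have h2 : ((⌊((M : ℝ) - b0) / P⌋ : ℤ) : ℝ) + 1 ≤ m := by exact_mod_cast hmA
    linarith
  have hm2 : (m : ℝ) ≤ ((M : ℝ) + X - F - b0) / P := by
    have := Int.floor_le (((M : ℝ) + X - F - b0) / P)
    have h2 : (m : ℝ) ≤ ((⌊((M : ℝ) + X - F - b0) / P⌋ : ℤ) : ℝ) := by exact_mod_cast hmB
    linarith
  rw [div_lt_iff₀ hPr] at hm1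
  rw [le_div_iff₀ hPr] at hm2
  refine ⟨b0 + P * m, ?_, ?_, ?_⟩
  · have : (M : ℝ) ≤ ((b0 + P * m : ℤ) : ℝ) := by
      push_cast
      linarith
    exact_mod_cast this
  · push_cast
    linarith
  · intro k hk1 hkL
    have hkN : k ≤ ⌊F⌋₊ := Nat.le_floor hkL
    by_cases hkU : k ∈ U
    · obtain ⟨p, hp, hp1, hp2, hp3⟩ := hm ⟨k, hkU⟩
      refine ⟨p, hp, hp2, ?_⟩
      have h1 := hip p hp (hndvdP p hp hp1)
      have h3 := hp3.mul_left (P : ℤ)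
      have h4 := h1.mul_left ((b0 : ℤ) + (k : ℤ))
      have h5 := dvd_sub h3 h4
      have h6 : (P : ℤ) * ((m : ℤ) - -((b0 : ℤ) + (k : ℤ)) * ip p) -
          ((b0 : ℤ) + (k : ℤ)) * ((P : ℤ) * ip p - 1) = (b0 : ℤ) + P * m + k := by
        ring
      rwa [← h6]
    · have hkU' : ¬ ∀ p : ℕ, p.Prime → (p : ℝ) ≤ x → ¬ k ≡ a p [MOD p] := fun h =>
        hkU (mem_filter.2 ⟨mem_Icc.2 ⟨hk1, hkN⟩, h⟩)
      push Not at hkU'
      obtain ⟨p, hp, hpy, hkp⟩ := hkU'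
      refine ⟨p, hp, hpy.trans hxδ, ?_⟩
      have h1 : b0 + k ≡ b0 + a p [MOD p] := hkp.add_left _
      have h2 : p ∣ b0 + k := (Nat.modEq_zero_iff_dvd).1
        (h1.trans ((Nat.modEq_zero_iff_dvd).2 (hb0b p hp hpy)))
      have h3 : (p : ℤ) ∣ (P : ℤ) * m := Dvd.dvd.mul_right (by exact_mod_cast hdvdP p hp hpy) _
      have h4 : (p : ℤ) ∣ (b0 : ℤ) + k := by exact_mod_cast h2
      have h5 : (b0 : ℤ) + P * m + k = ((b0 : ℤ) + k) + P * m := by ring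
      rw [h5]
      exact dvd_add h4 h3

theorem primorial_le_exp (x : ℝ) (hx : 0 ≤ x) : (primorial ⌊x⌋₊ : ℝ) ≤ Real.exp (2 * x) := by
  have h1 : (primorial ⌊x⌋₊ : ℝ) ≤ 4 ^ ⌊x⌋₊ := by exact_mod_cast primorial_le_four_pow _
  refine h1.trans ?_
  have h2 : (4 : ℝ) ≤ Real.exp 2 := by
    have := Real.add_one_le_exp (1 : ℝ)
    calc (4 : ℝ) = 2 * 2 := by norm_num
      _ ≤ Real.exp 1 * Real.exp 1 := by gcongr <;> linarith
      _ = Real.exp 2 := by rw [← Real.exp_add]; norm_num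
  calc (4 : ℝ) ^ ⌊x⌋₊ ≤ (Real.exp 2) ^ ⌊x⌋₊ := by gcongr
    _ = Real.exp (⌊x⌋₊ * 2) := by rw [← Real.exp_nat_mul]
    _ ≤ Real.exp (2 * x) := by
      apply Real.exp_le_exp.2
      have := Nat.floor_le hx
      linarith

/-- largeness conditions for the assembly -/
theorem ev_run (b c ε : ℝ) (hb : 1 < b) (hc : 0 < c) (hε : 0 < ε) (hε1 : ε ≤ 1) :
    ∃ X₀ : ℝ, ∀ X : ℝ, X₀ ≤ X →
    1 ≤ X ∧ 0 ≤ c * ff X ∧ c * ff X ≤ (Real.log X) ^ b ∧ 1 ≤ Real.log X ∧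
    Real.log X ≤ (Real.log X) ^ b ∧
    ε / 64 * Real.log X ≤ X ^ (ε / 8) ∧
    X ^ (1 - ε / 8) ≤ (X - c * ff X) / Real.exp (2 * (ε / 64 * Real.log X)) - 1 := by
  obtain ⟨X₁, hX₁⟩ := ev4 (max 1 (8 * c))
  have t1 := Real.tendsto_log_atTop
  have h1 : ∀ᶠ L : ℝ in Filter.atTop, c * (Real.log L) ^ 2 ≤ L ^ (b - 1) := by
    have e1 : (fun L : ℝ => (Real.log L) ^ (2:ℝ)) =o[Filter.atTop] (fun L : ℝ => L ^ (b - 1)) :=
      isLittleO_log_rpow_rpow_atTop 2 (by linarith)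
    have e2 := e1.def (show (0:ℝ) < 1 / c by positivity)
    filter_upwards [e2, Filter.eventually_ge_atTop (1:ℝ)] with L hL hL1
    have hl0 := Real.log_nonneg hL1
    rw [Real.norm_eq_abs, Real.norm_eq_abs, abs_of_nonneg (Real.rpow_nonneg hl0 _),
      abs_of_nonneg (Real.rpow_nonneg (by linarith) _), Real.rpow_two, div_mul_eq_mul_div, one_mul,
      le_div_iff₀ hc] at hL
    linarith
  have h2 : ∀ᶠ L : ℝ in Filter.atTop, L ^ b * Real.exp (-(ε / 8 * L)) ≤ 1 / 4 := by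
    have e1 := tendsto_rpow_mul_exp_neg_mul_atTop_nhds_zero b (ε / 8) (by positivity)
    have e2 := e1.eventually (gt_mem_nhds (show (0:ℝ) < 1 / 4 by norm_num))
    filter_upwards [e2] with L hL
    have : -(ε / 8) * L = -(ε / 8 * L) := by ring
    rw [this] at hL
    exact hL.le
  have h3 : ∀ᶠ L : ℝ in Filter.atTop, 4 ≤ Real.exp (ε / 32 * L) := by
    have e5 : Filter.Tendsto (fun x : ℝ => ε / 32 * x) Filter.atTop Filter.atTop :=
      Filter.Tendsto.const_mul_atTop (by positivity) Filter.tendsto_id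
    have e6 := Real.tendsto_exp_atTop.comp e5
    filter_upwards [e6.eventually_ge_atTop 4] with x hx
    exact hx
  have hall := (t1.eventually (h1.and (h2.and (h3.and (Filter.eventually_ge_atTop (1:ℝ)))))).and
    (Filter.eventually_ge_atTop X₁)
  obtain ⟨X₀, hX₀⟩ := Filter.eventually_atTop.1 hall
  refine ⟨X₀, fun X hX => ?_⟩
  obtain ⟨⟨g1, g2, g3, g4⟩, g5⟩ := hX₀ X hX
  obtain ⟨m0, m4, m5, m3, m2, m1⟩ := hX₁ X g5
  have hff : ff X = Real.log X * (Real.log (Real.log X)) ^ 2 *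
    Real.log (Real.log (Real.log (Real.log X))) / (Real.log (Real.log (Real.log X))) ^ 2 := rfl
  rw [hff]
  have hXpos : 0 < X := by linarith
  have hXr : ∀ s : ℝ, X ^ s = Real.exp (s * Real.log X) := by
    intro s
    rw [Real.rpow_def_of_pos hXpos, mul_comm]
  have hXL : X = Real.exp (Real.log X) := (Real.exp_log hXpos).symm
  rw [hXr, hXr]
  set L := Real.log X with hL
  set l := Real.log L with hl
  set l3 := Real.log l with hl3
  set l4 := Real.log l3 with hl4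
  have hK : (1:ℝ) ≤ max 1 (8 * c) := le_max_left _ _
  obtain ⟨a4, a3, a2, a1⟩ := s_pos hK m4 m3 m2 m1
  have pl4 : 0 < l4 := by linarith
  have pl3 : 0 < l3 := by linarith
  have pl : 0 < l := by linarith
  have pL : 0 < L := by linarith
  have hF0 : 0 ≤ c * (L * l ^ 2 * l4 / l3 ^ 2) := by positivity
  have hLb : L ^ b = L * L ^ (b - 1) := by
    rw [Real.rpow_sub pL, Real.rpow_one]
    field_simp
  have hFb : c * (L * l ^ 2 * l4 / l3 ^ 2) ≤ L ^ b := by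
    have e1 : l4 / l3 ^ 2 ≤ 1 := by
      rw [div_le_one (by positivity)]
      nlinarith
    calc c * (L * l ^ 2 * l4 / l3 ^ 2) = L * (c * l ^ 2) * (l4 / l3 ^ 2) := by ring
      _ ≤ L * (c * l ^ 2) * 1 := mul_le_mul_of_nonneg_left e1 (by positivity)
      _ = L * (c * l ^ 2) := mul_one _
      _ ≤ L * L ^ (b - 1) := mul_le_mul_of_nonneg_left g1 pL.le
      _ = L ^ b := hLb.symm
  refine ⟨m0, hF0, hFb, g4, ?_, ?_, ?_⟩
  · calc L = L ^ (1:ℝ) := (Real.rpow_one L).symm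
      _ ≤ L ^ b := Real.rpow_le_rpow_of_exponent_le g4 hb.le
  · have := Real.add_one_le_exp (ε / 8 * L)
    have h5 : 0 ≤ ε * L := by positivity
    linarith
  · -- the length
    have e1 : L ^ b ≤ 1 / 4 * Real.exp (ε / 8 * L) := by
      have h5 : L ^ b * Real.exp (-(ε / 8 * L)) * Real.exp (ε / 8 * L) ≤
          1 / 4 * Real.exp (ε / 8 * L) := mul_le_mul_of_nonneg_right g2 (Real.exp_pos _).le
      rwa [mul_assoc, ← Real.exp_add, neg_add_cancel, Real.exp_zero, mul_one] at h5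
    have e2 : Real.exp (ε / 8 * L) ≤ Real.exp L := Real.exp_le_exp.2 (by nlinarith)
    have e3 : 1 / 2 * Real.exp L ≤ X - c * (L * l ^ 2 * l4 / l3 ^ 2) := by
      rw [hXL, ← hXL]
      have : X = Real.exp L := hXL
      linarith
    have e4 : 1 / 2 * Real.exp L / Real.exp (2 * (ε / 64 * L)) - 1 ≤
        (X - c * (L * l ^ 2 * l4 / l3 ^ 2)) / Real.exp (2 * (ε / 64 * L)) - 1 := by
      apply sub_le_sub_right
      apply div_le_div_of_nonneg_right e3 (Real.exp_pos _).le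
    refine le_trans ?_ e4
    have e5 : 1 / 2 * Real.exp L / Real.exp (2 * (ε / 64 * L)) =
        1 / 2 * Real.exp ((1 - ε / 32) * L) := by
      rw [mul_div_assoc, ← Real.exp_sub]
      congr 2
      ring
    have e6 : Real.exp ((1 - ε / 8) * L) * 4 ≤ Real.exp ((1 - ε / 32) * L) := by
      calc Real.exp ((1 - ε / 8) * L) * 4 ≤ Real.exp ((1 - ε / 8) * L) * Real.exp (ε / 32 * L) :=
            mul_le_mul_of_nonneg_left g3 (Real.exp_pos _).le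
        _ = Real.exp ((1 - 3 * ε / 32) * L) := by rw [← Real.exp_add]; congr 1; ring
        _ ≤ _ := Real.exp_le_exp.2 (by nlinarith)
    have e7 : 1 ≤ Real.exp ((1 - ε / 8) * L) := Real.one_le_exp (by
      apply mul_nonneg _ pL.le
      linarith)
    rw [e5]
    linarith

/-- runs of integers with small prime factors, from the covering theorem -/
theorem run_of (b : ℝ) (hb1 : 1 < b) (hb2 : b ≤ 2)
    (hcov : ∀ ε : ℝ, 0 < ε → ε ≤ 1 / 4 → ∃ X₀ : ℝ, ∀ X : ℝ, X₀ ≤ X →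
      CovAt ((Real.log X) ^ b) X (ε / 8) ε)
    (c δ : ℝ) (hc : 0 < c) (hcb : 4 * b * c < 1) (hδ : 0 < δ) :
    ∃ X₀ : ℝ, ∀ X : ℝ, X₀ ≤ X → ∀ M : ℤ, ∃ n : ℤ, M ≤ n ∧ (n : ℝ) + c * ff X ≤ M + X ∧
      ∀ k : ℕ, 1 ≤ k → (k : ℝ) ≤ c * ff X → ∃ p : ℕ, p.Prime ∧ (p : ℝ) ≤ X ^ δ ∧
        (p : ℤ) ∣ n + k := by
  obtain ⟨ε, hε, hε4, hεδ, hεc⟩ : ∃ ε : ℝ, 0 < ε ∧ ε ≤ 1 / 4 ∧ ε / 8 ≤ δ ∧ 2 * b * c < 1 / 2 - ε := by
    refine ⟨min (1 / 4) (min δ ((1 / 2 - 2 * b * c) / 2)), ?_, min_le_left _ _, ?_, ?_⟩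
    · apply lt_min (by norm_num) (lt_min hδ _)
      linarith
    · have : min (1 / 4) (min δ ((1 / 2 - 2 * b * c) / 2)) ≤ δ :=
        (min_le_right _ _).trans (min_le_left _ _)
      linarith
    · have : min (1 / 4) (min δ ((1 / 2 - 2 * b * c) / 2)) ≤ (1 / 2 - 2 * b * c) / 2 :=
        (min_le_right _ _).trans (min_le_right _ _)
      linarith
  obtain ⟨X₁, hX₁⟩ := hcov ε hε hε4
  obtain ⟨X₂, hX₂⟩ := surv b c (1 / 2 - ε) (ε / 64) hb1.le hb2 hc hεc (by positivity) (by linarith)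
  obtain ⟨X₃, hX₃⟩ := ev_run b c ε hb1 hc hε (by linarith)
  refine ⟨max X₁ (max X₂ X₃), fun X hX M => ?_⟩
  have h1 := hX₁ X ((le_max_left _ _).trans hX)
  obtain ⟨a, ha1, ha2⟩ := hX₂ X ((le_max_left _ _).trans ((le_max_right _ _).trans hX))
  obtain ⟨g0, g1, g2, g3, g4, g5, g6⟩ :=
    hX₃ X ((le_max_right _ _).trans ((le_max_right _ _).trans hX))
  have hx0 : 0 ≤ ε / 64 * Real.log X := by positivity
  have hxL : ε / 64 * Real.log X ≤ Real.log X := by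
    have : ε / 64 * Real.log X ≤ 1 * Real.log X :=
      mul_le_mul_of_nonneg_right (by linarith) (by linarith)
    linarith
  have hprim := primorial_le_exp (ε / 64 * Real.log X) hx0
  have hPpos : (0:ℝ) < (primorial ⌊ε / 64 * Real.log X⌋₊ : ℝ) := by
    exact_mod_cast primorial_pos _
  have hFX : 0 ≤ X - c * ff X := by
    by_contra h
    push Not at h
    have h2 : (X - c * ff X) / Real.exp (2 * (ε / 64 * Real.log X)) < 0 :=
      div_neg_of_neg_of_pos h (Real.exp_pos _)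
    have h3 : 0 ≤ X ^ (1 - ε / 8) := Real.rpow_nonneg (by linarith) _
    linarith
  obtain ⟨n, hn1, hn2, hn3⟩ := run_arith h1 hx0 (hxL.trans g4) ha1 g1 g2
    (ha2 ⌊c * ff X⌋₊ (Nat.floor_le g1)) M (by
      refine g6.trans ?_
      apply sub_le_sub_right
      exact div_le_div_of_nonneg_left hFX hPpos hprim) g5
  refine ⟨n, hn1, hn2, fun k hk1 hk2 => ?_⟩
  obtain ⟨p, hp, hp1, hp2⟩ := hn3 k hk1 hk2
  exact ⟨p, hp, hp1.trans (Real.rpow_le_rpow_of_exponent_le g0 hεδ), hp2⟩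

end Pool.Agent.Y831.RC
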