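import Pool.Agent.Y831.RC.WWb
import Pool.Agent.H398R2.RK.Smooth

set_option autoImplicit false
set_option linter.unusedVariables false

/-! # Smooth numbers, sharp in the exponent -/

namespace Pool.Agent.Y831.RC

open Finset Pool.Agent.H398R2.RK

open scoped Classical

theorem euler_gen (P' M : Finset ℕ) (hM : ∀ m ∈ M, m ∈ Nat.factoredNumbers P') {σ : ℝ}
    (hσ : 0 < σ) : ∑ m ∈ M, (m : ℝ) ^ (-σ) ≤ ∏ p ∈ P' with p.Prime, (1 - (p : ℝ) ^ (-σ))⁻¹ := by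
  have h := EulerProduct.summable_and_hasSum_factoredNumbers_prod_filter_prime_geometric
    (f := pw σ hσ.ne') (by
      intro p hp
      have h1 : (pw σ hσ.ne') p = (p : ℝ) ^ (-σ) := rfl
      rw [h1, Real.norm_of_nonneg (by positivity)]
      exact pow_lt_one' hσ hp) P'
  have h2 := h.2
  have h3 := sum_le_hasSum (M.attach.image (fun n => (⟨n.1, hM n.1 n.2⟩ : Nat.factoredNumbers P')))
    (fun i _ => by
      have : (0 : ℝ) ≤ (i.1 : ℝ) ^ (-σ) := by positivity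
      exact this) h2
  rw [sum_image (by
    intro a _ b _ hab
    have := congrArg Subtype.val hab
    exact Subtype.ext this)] at h3
  refine le_trans (le_of_eq ?_) h3
  rw [← sum_attach]
  rfl

/-- number of integers with a large divisor composed of primes in `P'` -/
theorem card_div (P' : Finset ℕ) (N : ℕ) (D τ : ℝ) (hD : 0 < D) (hτ0 : 0 ≤ τ) (hτ1 : τ < 1)
    (S : Finset ℕ) (hS : ∀ n ∈ S, 1 ≤ n ∧ n ≤ N ∧ ∃ m : ℕ, m ∣ n ∧ m ∈ Nat.factoredNumbers P' ∧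
      D ≤ m) :
    (S.card : ℝ) ≤ N * D ^ (-τ) * ∏ p ∈ P' with p.Prime, (1 - (p : ℝ) ^ (-(1 - τ)))⁻¹ := by
  set M : Finset ℕ := (Finset.Icc 1 N).filter (fun m => m ∈ Nat.factoredNumbers P' ∧ D ≤ m) with hM
  have h1 : S ⊆ M.biUnion (fun m => (Finset.Icc 1 N).filter (fun n => m ∣ n)) := by
    intro n hn
    obtain ⟨h1, h2, m, hm, hmP, hDm⟩ := hS n hn
    rw [Finset.mem_biUnion]
    refine ⟨m, ?_, ?_⟩
    · rw [hM, Finset.mem_filter, Finset.mem_Icc]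
      exact ⟨⟨Nat.pos_of_dvd_of_pos hm h1, (Nat.le_of_dvd h1 hm).trans h2⟩, hmP, hDm⟩
    · rw [Finset.mem_filter, Finset.mem_Icc]
      exact ⟨⟨h1, h2⟩, hm⟩
  have h2 : (S.card : ℝ) ≤ ∑ m ∈ M, (N : ℝ) / m := by
    have e1 : S.card ≤ ∑ m ∈ M, ((Finset.Icc 1 N).filter (fun n => m ∣ n)).card :=
      (Finset.card_le_card h1).trans Finset.card_biUnion_le
    have e2 : (S.card : ℝ) ≤ ∑ m ∈ M, (((Finset.Icc 1 N).filter (fun n => m ∣ n)).card : ℝ) := by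
      exact_mod_cast e1
    refine e2.trans (Finset.sum_le_sum fun m hm => ?_)
    rw [hM, Finset.mem_filter, Finset.mem_Icc] at hm
    have e3 : ((Finset.Icc 1 N).filter (fun n => m ∣ n)).card = N / m := by
      have := Nat.Ioc_filter_dvd_card_eq_div N m
      have e4 : Finset.Icc 1 N = Finset.Ioc 0 N := by ext; simp [Finset.mem_Icc, Finset.mem_Ioc]; omega
      rw [e4]
      exact this
    rw [e3]
    exact Nat.cast_div_le
  refine h2.trans ?_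
  have hM' : ∀ m ∈ M, m ∈ Nat.factoredNumbers P' := fun m hm => (Finset.mem_filter.1 hm).2.1
  have h3 := euler_gen P' M hM' (σ := 1 - τ) (by linarith)
  have hDτ : 0 ≤ D ^ (-τ) := Real.rpow_nonneg hD.le _
  calc ∑ m ∈ M, (N : ℝ) / m ≤ ∑ m ∈ M, (N * D ^ (-τ)) * (m : ℝ) ^ (-(1 - τ)) := by
        refine Finset.sum_le_sum fun m hm => ?_
        rw [hM, Finset.mem_filter, Finset.mem_Icc] at hm
        have hm0 : (0 : ℝ) < m := by exact_mod_cast hm.1.1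
        have e1 : (m : ℝ) ^ (-(1 - τ)) = (m : ℝ) ^ τ / m := by
          rw [show -(1 - τ) = τ - 1 by ring, Real.rpow_sub hm0, Real.rpow_one]
        have e2 : 1 ≤ D ^ (-τ) * (m : ℝ) ^ τ := by
          rw [Real.rpow_neg hD.le, ← div_eq_inv_mul, one_le_div (Real.rpow_pos_of_pos hD _)]
          exact Real.rpow_le_rpow hD.le hm.2.2 hτ0
        rw [e1]
        calc (N : ℝ) / m = N / m * 1 := (mul_one _).symm
          _ ≤ N / m * (D ^ (-τ) * (m : ℝ) ^ τ) := mul_le_mul_of_nonneg_left e2 (by positivity)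
          _ = _ := by ring
    _ = (N * D ^ (-τ)) * ∑ m ∈ M, (m : ℝ) ^ (-(1 - τ)) := by rw [Finset.mul_sum]
    _ ≤ _ := mul_le_mul_of_nonneg_left h3 (by positivity)

/-- the product over the primes in `(v, z]` -/
theorem prod_mid (C : ℝ) (hC : ∀ a b : ℝ, 2 ≤ a → a ≤ b →
    ∑ p ∈ (Finset.Ioc ⌊a⌋₊ ⌊b⌋₊).filter Nat.Prime, (1 : ℝ) / p ≤
      Real.log (Real.log b / Real.log a) + C / Real.log a)
    (v z τ : ℝ) (hv : 2 ≤ v) (hvz : v ≤ z) (hτ0 : 0 ≤ τ) (hτ1 : τ ≤ 1 / 2) :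
    ∏ p ∈ Finset.Ioc ⌊v⌋₊ ⌊z⌋₊ with p.Prime, (1 - (p : ℝ) ^ (-(1 - τ)))⁻¹ ≤
      Real.exp (4 * (z ^ τ * (Real.log (Real.log z / Real.log v) + C / Real.log v))) := by
  have h1 : ∀ p ∈ (Finset.Ioc ⌊v⌋₊ ⌊z⌋₊).filter Nat.Prime, (1 - (p : ℝ) ^ (-(1 - τ)))⁻¹ ≤
      Real.exp (4 * (z ^ τ * (1 / p))) := by
    intro p hp
    rw [Finset.mem_filter, Finset.mem_Ioc] at hp
    have hp2 : (2 : ℝ) ≤ p := by exact_mod_cast hp.2.two_le
    have hp0 : (0 : ℝ) < p := by linarith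
    have hpz : (p : ℝ) ≤ z := by
      have : (p : ℝ) ≤ ⌊z⌋₊ := by exact_mod_cast hp.1.2
      exact this.trans (Nat.floor_le (by linarith))
    set x := (p : ℝ) ^ (-(1 - τ)) with hx
    have hx0 : 0 ≤ x := by positivity
    have hx1 : x ≤ 3 / 4 := by
      have h2 : x ≤ (2 : ℝ) ^ (-(1 - τ)) :=
        Real.rpow_le_rpow_of_nonpos (by norm_num) hp2 (by linarith)
      have h3 : (2 : ℝ) ^ (-(1 - τ)) ≤ (2 : ℝ) ^ (-(1 / 2) : ℝ) :=
        Real.rpow_le_rpow_of_exponent_le (by norm_num) (by linarith)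
      have h4 : (2 : ℝ) ^ (-(1 / 2) : ℝ) ≤ 3 / 4 := by
        rw [Real.rpow_neg (by norm_num), ← Real.sqrt_eq_rpow]
        rw [inv_le_comm₀ (by positivity) (by norm_num)]
        rw [show ((3 : ℝ) / 4)⁻¹ = 4 / 3 by norm_num]
        apply Real.le_sqrt_of_sq_le; norm_num
      linarith
    have h5 : (1 - x)⁻¹ ≤ Real.exp (4 * x) := by
      have h6 : 0 < 1 - x := by linarith
      rw [inv_le_iff_one_le_mul₀ h6]
      have h7 := Real.add_one_le_exp (4 * x)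
      have h8 : (4 * x + 1) * (1 - x) ≤ Real.exp (4 * x) * (1 - x) :=
        mul_le_mul_of_nonneg_right h7 h6.le
      nlinarith
    refine h5.trans (Real.exp_le_exp.2 ?_)
    have h6 : x = (p : ℝ) ^ τ * (1 / p) := by
      rw [hx, show -(1 - τ) = τ - 1 by ring, Real.rpow_sub hp0, Real.rpow_one]
      ring
    rw [h6]
    have h7 : (p : ℝ) ^ τ ≤ z ^ τ := Real.rpow_le_rpow hp0.le hpz hτ0
    have h8 : (p : ℝ) ^ τ * (1 / p) ≤ z ^ τ * (1 / p) := mul_le_mul_of_nonneg_right h7 (by positivity)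
    linarith
  have h2 : ∀ p ∈ (Finset.Ioc ⌊v⌋₊ ⌊z⌋₊).filter Nat.Prime, 0 ≤ (1 - (p : ℝ) ^ (-(1 - τ)))⁻¹ := by
    intro p hp
    rw [Finset.mem_filter] at hp
    have := pow_lt_one' (σ := 1 - τ) (by linarith) hp.2
    exact inv_nonneg.2 (by linarith)
  refine (Finset.prod_le_prod h2 h1).trans ?_
  rw [← Real.exp_sum, ← Finset.mul_sum, ← Finset.mul_sum]
  apply Real.exp_le_exp.2
  have h3 := hC v z hv hvz
  have h4 : 0 ≤ z ^ τ := Real.rpow_nonneg (by linarith) _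
  have h5 := mul_le_mul_of_nonneg_left h3 h4
  linarith

/-- splitting of the smooth numbers -/
theorem smooth_split (N : ℕ) (v z D₁ D₂ : ℝ) (hv : 0 ≤ v) (hz : 0 ≤ z) (hD₁ : 0 < D₁) :
    ∀ n : ℕ, 1 ≤ n → (∀ p : ℕ, p.Prime → p ∣ n → (p : ℝ) ≤ z) → D₁ * D₂ ≤ n →
      (∃ m : ℕ, m ∣ n ∧ m ∈ Nat.factoredNumbers (Finset.Ioc 0 ⌊v⌋₊) ∧ D₁ ≤ m) ∨
      (∃ m : ℕ, m ∣ n ∧ m ∈ Nat.factoredNumbers (Finset.Ioc ⌊v⌋₊ ⌊z⌋₊) ∧ D₂ ≤ m) := by
  intro n hn hsm hD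
  set P : Finset ℕ := Finset.Ioc 0 ⌊v⌋₊ with hP
  set a := ∏ p ∈ n.primeFactors with p ∈ P, p ^ (n.factorization p) with ha
  set b := ∏ p ∈ n.primeFactors with ¬ (p ∈ P), p ^ (n.factorization p) with hb
  have hab : a * b = n := by
    rw [ha, hb, Finset.prod_filter_mul_prod_filter_not]
    exact Nat.prod_factorization_pow_eq_self (by omega)
  have haP : a ∈ Nat.factoredNumbers P := by
    rw [Nat.mem_factoredNumbers']
    intro q hq hqa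
    rw [ha, Prime.dvd_finsetProd_iff hq.prime] at hqa
    obtain ⟨p, hp, hqp⟩ := hqa
    rw [Finset.mem_filter, Nat.mem_primeFactors] at hp
    have := (Nat.prime_dvd_prime_iff_eq hq hp.1.1).1 (hq.dvd_of_dvd_pow hqp)
    rw [this]; exact hp.2
  have hbP : b ∈ Nat.factoredNumbers (Finset.Ioc ⌊v⌋₊ ⌊z⌋₊) := by
    rw [Nat.mem_factoredNumbers']
    intro q hq hqb
    have hqn : q ∣ n := hqb.trans ⟨a, by rw [← hab]; ring⟩
    rw [hb, Prime.dvd_finsetProd_iff hq.prime] at hqb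
    obtain ⟨p, hp, hqp⟩ := hqb
    rw [Finset.mem_filter, Nat.mem_primeFactors] at hp
    have h1 := (Nat.prime_dvd_prime_iff_eq hq hp.1.1).1 (hq.dvd_of_dvd_pow hqp)
    have h2 := hp.2
    rw [← h1, hP, Finset.mem_Ioc] at h2
    rw [Finset.mem_Ioc]
    refine ⟨?_, Nat.le_floor (hsm q hq hqn)⟩
    have := hq.pos
    by_contra h3
    exact h2 ⟨this, by omega⟩
  by_cases h : D₁ ≤ a
  · exact Or.inl ⟨a, ⟨b, hab.symm⟩, haP, h⟩
  · right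
    push Not at h
    refine ⟨b, ⟨a, by rw [← hab]; ring⟩, hbP, ?_⟩
    by_contra h2
    push Not at h2
    have h3 : (n : ℝ) = a * b := by rw [← hab]; push_cast; ring
    have hb0 : (0:ℝ) ≤ b := by positivity
    have ha0 : (0:ℝ) ≤ a := by positivity
    have hD₂ : 0 < D₂ := lt_of_le_of_lt hb0 h2
    have h4 : (a : ℝ) * b < D₁ * D₂ := by
      calc (a : ℝ) * b ≤ D₁ * b := mul_le_mul_of_nonneg_right h.le hb0
        _ < D₁ * D₂ := mul_lt_mul_of_pos_left h2 hD₁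
    linarith

/-- three parameters bound -/
theorem smooth_three (C₀ : ℝ) (hC₀ : ∀ (η : ℝ) (v : ℕ), 0 ≤ η → η ≤ 1 / 4 → 2 ≤ v →
    ∏ p ∈ Pool.Agent.H318R2.Cr.Pz v, (1 - (p : ℝ) ^ (-(1 - η)))⁻¹ ≤
      C₀ * Real.log v * Real.exp (4 * η * (v : ℝ) ^ η * (Real.log v + C₀)))
    (C : ℝ) (hC : ∀ a b : ℝ, 2 ≤ a → a ≤ b →
    ∑ p ∈ (Finset.Ioc ⌊a⌋₊ ⌊b⌋₊).filter Nat.Prime, (1 : ℝ) / p ≤
      Real.log (Real.log b / Real.log a) + C / Real.log a)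
    (N : ℕ) (v z D₁ D₂ τ₁ τ₂ : ℝ) (hv : 2 ≤ v) (hvz : v ≤ z) (hD₁ : 0 < D₁) (hD₂ : 0 < D₂)
    (hτ₁ : 0 ≤ τ₁) (hτ₁' : τ₁ ≤ 1 / 4) (hτ₂ : 0 ≤ τ₂) (hτ₂' : τ₂ ≤ 1 / 2) :
    (((Finset.Icc 1 N).filter (fun n => ∀ p : ℕ, p.Prime → p ∣ n → (p : ℝ) ≤ z)).card : ℝ) ≤
      D₁ * D₂ + N * D₁ ^ (-τ₁) * (C₀ * Real.log ⌊v⌋₊ *
        Real.exp (4 * τ₁ * (⌊v⌋₊ : ℝ) ^ τ₁ * (Real.log ⌊v⌋₊ + C₀))) +
      N * D₂ ^ (-τ₂) * Real.exp (4 * (z ^ τ₂ *
        (Real.log (Real.log z / Real.log v) + C / Real.log v))) := by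
  set S := (Finset.Icc 1 N).filter (fun n => ∀ p : ℕ, p.Prime → p ∣ n → (p : ℝ) ≤ z) with hS
  set S₀ : Finset ℕ := S.filter (fun n : ℕ => (n : ℝ) < D₁ * D₂) with hS₀
  set S₁ := S.filter (fun n => ∃ m : ℕ, m ∣ n ∧ m ∈ Nat.factoredNumbers (Finset.Ioc 0 ⌊v⌋₊) ∧
    D₁ ≤ m) with hS₁
  set S₂ := S.filter (fun n => ∃ m : ℕ, m ∣ n ∧ m ∈ Nat.factoredNumbers (Finset.Ioc ⌊v⌋₊ ⌊z⌋₊) ∧
    D₂ ≤ m) with hS₂
  have hsub : S ⊆ S₀ ∪ (S₁ ∪ S₂) := by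
    intro n hn
    have hn' := hn
    rw [hS, Finset.mem_filter, Finset.mem_Icc] at hn'
    by_cases h : (n : ℝ) < D₁ * D₂
    · exact Finset.mem_union_left _ (Finset.mem_filter.2 ⟨hn, h⟩)
    · push Not at h
      rcases smooth_split N v z D₁ D₂ (by linarith) (by linarith) hD₁ n hn'.1.1 hn'.2 h with h1 | h1
      · exact Finset.mem_union_right _ (Finset.mem_union_left _ (Finset.mem_filter.2 ⟨hn, h1⟩))
      · exact Finset.mem_union_right _ (Finset.mem_union_right _ (Finset.mem_filter.2 ⟨hn, h1⟩))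
  have hcard : (S.card : ℝ) ≤ S₀.card + (S₁.card + S₂.card) := by
    have h1 := (Finset.card_le_card hsub).trans (Finset.card_union_le _ _)
    have h2 := Finset.card_union_le S₁ S₂
    have : S.card ≤ S₀.card + (S₁.card + S₂.card) := by omega
    exact_mod_cast this
  have h0 : (S₀.card : ℝ) ≤ D₁ * D₂ := by
    have h1 : S₀ ⊆ Finset.Icc 1 ⌊D₁ * D₂⌋₊ := by
      intro n hn
      rw [hS₀, Finset.mem_filter, hS, Finset.mem_filter, Finset.mem_Icc] at hn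
      rw [Finset.mem_Icc]
      exact ⟨hn.1.1.1, Nat.le_floor hn.2.le⟩
    have h2 := Finset.card_le_card h1
    rw [Nat.card_Icc] at h2
    have h3 : (S₀.card : ℝ) ≤ (⌊D₁ * D₂⌋₊ : ℝ) := by exact_mod_cast (by omega : S₀.card ≤ ⌊D₁ * D₂⌋₊)
    exact h3.trans (Nat.floor_le (by positivity))
  have h1 : (S₁.card : ℝ) ≤ N * D₁ ^ (-τ₁) * (C₀ * Real.log ⌊v⌋₊ *
        Real.exp (4 * τ₁ * (⌊v⌋₊ : ℝ) ^ τ₁ * (Real.log ⌊v⌋₊ + C₀))) := by
    have e1 := card_div (Finset.Ioc 0 ⌊v⌋₊) N D₁ τ₁ hD₁ hτ₁ (by linarith) S₁ (by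
      intro n hn
      rw [hS₁, Finset.mem_filter, hS, Finset.mem_filter, Finset.mem_Icc] at hn
      exact ⟨hn.1.1.1, hn.1.1.2, hn.2⟩)
    refine e1.trans ?_
    apply mul_le_mul_of_nonneg_left _ (by positivity)
    exact hC₀ τ₁ ⌊v⌋₊ hτ₁ hτ₁' (Nat.le_floor (by exact_mod_cast hv))
  have h2 : (S₂.card : ℝ) ≤ N * D₂ ^ (-τ₂) * Real.exp (4 * (z ^ τ₂ *
        (Real.log (Real.log z / Real.log v) + C / Real.log v))) := by
    have e1 := card_div (Finset.Ioc ⌊v⌋₊ ⌊z⌋₊) N D₂ τ₂ hD₂ hτ₂ (by linarith) S₂ (by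
      intro n hn
      rw [hS₂, Finset.mem_filter, hS, Finset.mem_filter, Finset.mem_Icc] at hn
      exact ⟨hn.1.1.1, hn.1.1.2, hn.2⟩)
    refine e1.trans ?_
    apply mul_le_mul_of_nonneg_left _ (by positivity)
    exact prod_mid C hC v z τ₂ hv hvz hτ₂ hτ₂'
  linarith

end Pool.Agent.Y831.RC
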