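import Pool.Agent.Y831.RC.Smooth

set_option autoImplicit false
set_option linter.unusedVariables false

/-! # Smooth numbers: the sharp bound `u^{-(1-ε)u}` -/

namespace Pool.Agent.Y831.RC

open Finset Pool.Agent.H398R2.RK

open scoped Classical

theorem sm_term1 {ε C₀ u Z N : ℝ} (v : ℝ) (hv : v = Real.exp (ε / 96 * Z)) (hε : 0 < ε)
    (hC₀ : 0 < C₀) (hu : 16 ≤ u) (hu2 : Real.log C₀ ≤ u) (hZ : 1 ≤ ε / 96 * Z)
    (hZC : C₀ ≤ ε / 96 * Z) (hε1 : ε ≤ 1 / 4)
    (hZu : Real.log Z ≤ 3 * (u * Real.log u)) (hN : 0 ≤ N) :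
    N * (Real.exp (ε / 8 * (u * Z))) ^ (-(48 / ε * Real.log u / Z)) * (C₀ * Real.log ⌊v⌋₊ *
        Real.exp (4 * (48 / ε * Real.log u / Z) * (⌊v⌋₊ : ℝ) ^ (48 / ε * Real.log u / Z) *
          (Real.log ⌊v⌋₊ + C₀))) ≤ N * Real.exp (-(u * Real.log u)) := by
  have hZ0 : 0 < Z := by
    by_contra h
    push Not at h
    nlinarith
  have hu0 : 0 < u := by linarith
  have hlu : 2 ≤ Real.log u := by
    have h1 : Real.log 16 = 4 * Real.log 2 := by
      rw [show (16:ℝ) = 2 ^ 4 by norm_num, Real.log_pow]; norm_num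
    have h2 := Real.log_two_gt_d9
    have h3 : Real.log 16 ≤ Real.log u := Real.log_le_log (by norm_num) hu
    linarith
  have hv2 : 2 ≤ v := by
    rw [hv]
    have := Real.add_one_le_exp (ε / 96 * Z)
    linarith
  obtain ⟨f1, f2, f3, f4, f5, f6⟩ := floor_facts v hv2
  have hlv : Real.log v = ε / 96 * Z := by rw [hv, Real.log_exp]
  rw [hlv] at f4
  set τ := 48 / ε * Real.log u / Z with hτ
  have hτ0 : 0 ≤ τ := by positivity
  have e1 : (Real.exp (ε / 8 * (u * Z))) ^ (-τ) = Real.exp (-(6 * (u * Real.log u))) := by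
    rw [← Real.exp_mul]
    congr 1
    rw [hτ]
    field_simp
    norm_num
  have e2 : (⌊v⌋₊ : ℝ) ^ τ ≤ Real.exp (Real.log u / 2) := by
    calc (⌊v⌋₊ : ℝ) ^ τ ≤ v ^ τ := Real.rpow_le_rpow (by positivity) f2 hτ0
      _ = Real.exp (Real.log u / 2) := by
          rw [hv, ← Real.exp_mul]
          congr 1
          rw [hτ]
          field_simp
          norm_num
  have e3 : Real.exp (Real.log u / 2) = Real.sqrt u := by
    rw [Real.sqrt_eq_rpow, Real.rpow_def_of_pos hu0]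
    congr 1
    ring
  have e4 : 4 * τ * (⌊v⌋₊ : ℝ) ^ τ * (Real.log ⌊v⌋₊ + C₀) ≤ 4 * (Real.sqrt u * Real.log u) := by
    have h1 : Real.log ⌊v⌋₊ + C₀ ≤ 2 * (ε / 96 * Z) := by linarith
    have h2 : (⌊v⌋₊ : ℝ) ^ τ ≤ Real.sqrt u := by rw [← e3]; exact e2
    have h0 : 0 ≤ Real.log ⌊v⌋₊ + C₀ := by linarith
    calc 4 * τ * (⌊v⌋₊ : ℝ) ^ τ * (Real.log ⌊v⌋₊ + C₀) ≤ 4 * τ * Real.sqrt u * (2 * (ε / 96 * Z)) := by
          gcongr
      _ = 4 * (Real.sqrt u * Real.log u) := by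
          rw [hτ]
          field_simp
          norm_num
  have e5 : 4 * (Real.sqrt u * Real.log u) ≤ u * Real.log u := by
    have h1 : (4:ℝ) ≤ Real.sqrt u := by
      apply Real.le_sqrt_of_sq_le
      linarith
    have h2 : Real.sqrt u * Real.sqrt u = u := Real.mul_self_sqrt hu0.le
    have h3 : 4 * Real.sqrt u ≤ u := by nlinarith
    have h4 : 4 * Real.sqrt u * Real.log u ≤ u * Real.log u :=
      mul_le_mul_of_nonneg_right h3 (by linarith)
    linarith
  have e6 : C₀ * Real.log ⌊v⌋₊ ≤ Real.exp (u * Real.log u + 3 * (u * Real.log u)) := by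
    rw [Real.exp_add]
    have hul : u ≤ u * Real.log u := by nlinarith
    have h1 : C₀ ≤ Real.exp (u * Real.log u) := by
      rw [← Real.log_le_iff_le_exp hC₀]
      linarith
    have h2 : Real.log ⌊v⌋₊ ≤ Real.exp (3 * (u * Real.log u)) := by
      have h3 : Z ≤ Real.exp (3 * (u * Real.log u)) := by
        rw [← Real.log_le_iff_le_exp hZ0]
        exact hZu
      have h4 : ε / 96 * Z ≤ Z := by nlinarith
      linarith
    exact mul_le_mul h1 h2 f3.le (Real.exp_pos _).le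
  rw [e1]
  have e7 : C₀ * Real.log ⌊v⌋₊ * Real.exp (4 * τ * (⌊v⌋₊ : ℝ) ^ τ * (Real.log ⌊v⌋₊ + C₀)) ≤
      Real.exp (u * Real.log u + 3 * (u * Real.log u)) * Real.exp (u * Real.log u) := by
    apply mul_le_mul e6 _ (Real.exp_pos _).le (Real.exp_pos _).le
    apply Real.exp_le_exp.2
    linarith
  calc N * Real.exp (-(6 * (u * Real.log u))) * (C₀ * Real.log ⌊v⌋₊ *
        Real.exp (4 * τ * (⌊v⌋₊ : ℝ) ^ τ * (Real.log ⌊v⌋₊ + C₀)))
      ≤ N * Real.exp (-(6 * (u * Real.log u))) *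
        (Real.exp (u * Real.log u + 3 * (u * Real.log u)) * Real.exp (u * Real.log u)) :=
        mul_le_mul_of_nonneg_left e7 (by positivity)
    _ = N * Real.exp (-(u * Real.log u)) := by
        rw [mul_assoc, ← Real.exp_add, ← Real.exp_add]
        congr 2
        ring

theorem sm_term2 {ε C u Z N z : ℝ} (v : ℝ) (hv : v = Real.exp (ε / 96 * Z)) (hz : z = Real.exp Z)
    (hε : 0 < ε) (hC : 0 ≤ C) (hu : 16 ≤ u) (hZ : 1 ≤ ε / 96 * Z) (hZC : C ≤ ε / 96 * Z)
    (hlu : 4 * (Real.log (96 / ε) + 1) ≤ ε / 4 * Real.log u) (hN : 0 ≤ N) :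
    N * (Real.exp ((1 - ε / 4) * (u * Z))) ^ (-(Real.log u / Z)) *
      Real.exp (4 * (z ^ (Real.log u / Z) * (Real.log (Real.log z / Real.log v) + C / Real.log v))) ≤
      N * Real.exp (-((1 - ε / 2) * (u * Real.log u))) := by
  have hZ0 : 0 < Z := by
    by_contra h
    push Not at h
    nlinarith
  have hu0 : 0 < u := by linarith
  have hlv : Real.log v = ε / 96 * Z := by rw [hv, Real.log_exp]
  have hlz : Real.log z = Z := by rw [hz, Real.log_exp]
  have e1 : (Real.exp ((1 - ε / 4) * (u * Z))) ^ (-(Real.log u / Z)) =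
      Real.exp (-((1 - ε / 4) * (u * Real.log u))) := by
    rw [← Real.exp_mul]
    congr 1
    field_simp
  have e2 : z ^ (Real.log u / Z) = u := by
    rw [hz, ← Real.exp_mul]
    have : Z * (Real.log u / Z) = Real.log u := by field_simp
    rw [this, Real.exp_log hu0]
  have e3 : Real.log z / Real.log v = 96 / ε := by
    rw [hlz, hlv]
    field_simp
  have e4 : C / Real.log v ≤ 1 := by
    rw [hlv, div_le_one (by linarith)]
    exact hZC
  rw [e1, e2, e3, mul_assoc, ← Real.exp_add]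
  apply mul_le_mul_of_nonneg_left _ hN
  apply Real.exp_le_exp.2
  have e5 : 4 * (u * (Real.log (96 / ε) + C / Real.log v)) ≤ ε / 4 * (u * Real.log u) := by
    calc 4 * (u * (Real.log (96 / ε) + C / Real.log v)) = u * (4 * (Real.log (96 / ε) + C / Real.log v)) := by
          ring
      _ ≤ u * (ε / 4 * Real.log u) := by
          apply mul_le_mul_of_nonneg_left _ hu0.le
          linarith
      _ = _ := by ring
  linarith

/-- the sharp bound for smooth numbers -/
theorem smooth_sharp (ε : ℝ) (hε : 0 < ε) (hε1 : ε ≤ 1 / 4) : ∃ K : ℝ, ∀ (N : ℕ) (z u Z : ℝ),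
    z = Real.exp Z → (N : ℝ) = Real.exp (u * Z) → K ≤ Z → K ≤ u →
    Real.log u ≤ ε / 200 * Z → Real.log Z ≤ 3 * (u * Real.log u) →
    (((Finset.Icc 1 N).filter (fun n => ∀ p : ℕ, p.Prime → p ∣ n → (p : ℝ) ≤ z)).card : ℝ) ≤
      3 * (N * Real.exp (-((1 - ε / 2) * (u * Real.log u)))) := by
  obtain ⟨C₀, hC₀, hE⟩ := euler_le
  obtain ⟨C, hC, hS⟩ := sum_ratio
  refine ⟨max (max 16 (Real.log C₀)) (max (96 / ε * (max 1 (max C₀ C)))
    (Real.exp (4 / ε * (4 * (Real.log (96 / ε) + 1))))), ?_⟩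
  intro N z u Z hz hN hKZ hKu hluZ hlZ
  have k1 : 16 ≤ u := (le_max_left _ _).trans ((le_max_left _ _).trans hKu)
  have k2 : Real.log C₀ ≤ u := (le_max_right _ _).trans ((le_max_left _ _).trans hKu)
  have k3 : 96 / ε * (max 1 (max C₀ C)) ≤ Z := (le_max_left _ _).trans ((le_max_right _ _).trans hKZ)
  have k4 : Real.exp (4 / ε * (4 * (Real.log (96 / ε) + 1))) ≤ u :=
    (le_max_right _ _).trans ((le_max_right _ _).trans hKu)
  have hu0 : 0 < u := by linarith
  have k5 : max 1 (max C₀ C) ≤ ε / 96 * Z := by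
    calc max 1 (max C₀ C) = ε / 96 * (96 / ε * (max 1 (max C₀ C))) := by field_simp
      _ ≤ ε / 96 * Z := mul_le_mul_of_nonneg_left k3 (by positivity)
  have k6 : 1 ≤ ε / 96 * Z := (le_max_left _ _).trans k5
  have k7 : C₀ ≤ ε / 96 * Z := (le_max_left _ _).trans ((le_max_right _ _).trans k5)
  have k8 : C ≤ ε / 96 * Z := (le_max_right _ _).trans ((le_max_right _ _).trans k5)
  have k9 : 4 * (Real.log (96 / ε) + 1) ≤ ε / 4 * Real.log u := by
    have h1 : 4 / ε * (4 * (Real.log (96 / ε) + 1)) ≤ Real.log u := by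
      rw [Real.le_log_iff_exp_le hu0]
      exact k4
    calc 4 * (Real.log (96 / ε) + 1) = ε / 4 * (4 / ε * (4 * (Real.log (96 / ε) + 1))) := by
          field_simp
      _ ≤ ε / 4 * Real.log u := mul_le_mul_of_nonneg_left h1 (by positivity)
  have hZ0 : 0 < Z := by
    by_contra h
    push Not at h
    nlinarith
  have hlu0 : 0 ≤ Real.log u := Real.log_nonneg (by linarith)
  set v := Real.exp (ε / 96 * Z) with hv
  have hv2 : 2 ≤ v := by
    rw [hv]
    have := Real.add_one_le_exp (ε / 96 * Z)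
    linarith
  have hvz : v ≤ z := by
    rw [hv, hz]
    apply Real.exp_le_exp.2
    nlinarith
  have hτ1 : 48 / ε * Real.log u / Z ≤ 1 / 4 := by
    rw [div_le_iff₀ hZ0]
    calc 48 / ε * Real.log u ≤ 48 / ε * (ε / 200 * Z) :=
          mul_le_mul_of_nonneg_left hluZ (by positivity)
      _ = 48 / 200 * Z := by field_simp
      _ ≤ 1 / 4 * Z := by linarith
  have hτ2 : Real.log u / Z ≤ 1 / 2 := by
    rw [div_le_iff₀ hZ0]
    nlinarith
  have h := smooth_three C₀ hE C hS N v z (Real.exp (ε / 8 * (u * Z)))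
    (Real.exp ((1 - ε / 4) * (u * Z))) (48 / ε * Real.log u / Z) (Real.log u / Z) hv2 hvz
    (Real.exp_pos _) (Real.exp_pos _) (by positivity) hτ1 (by positivity) hτ2
  refine h.trans ?_
  have hN0 : (0:ℝ) ≤ N := Nat.cast_nonneg _
  have t1 := sm_term1 (N := N) v hv hε hC₀ k1 k2 k6 k7 hε1 hlZ hN0
  have t2 := sm_term2 (N := N) v hv hz hε hC k1 k6 k8 k9 hN0
  have t0 : Real.exp (ε / 8 * (u * Z)) * Real.exp ((1 - ε / 4) * (u * Z)) ≤
      N * Real.exp (-(u * Real.log u)) := by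
    rw [hN, ← Real.exp_add, ← Real.exp_add]
    apply Real.exp_le_exp.2
    have h1 : u * Real.log u ≤ u * (ε / 200 * Z) := mul_le_mul_of_nonneg_left hluZ hu0.le
    have h2 : 0 ≤ ε * (u * Z) := by positivity
    linarith
  have t3 : N * Real.exp (-(u * Real.log u)) ≤ N * Real.exp (-((1 - ε / 2) * (u * Real.log u))) := by
    apply mul_le_mul_of_nonneg_left _ hN0
    apply Real.exp_le_exp.2
    have : 0 ≤ ε * (u * Real.log u) := by positivity
    linarith
  linarith

end Pool.Agent.Y831.RC
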