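import Pool.Agent.Y831.RC.Smooth2
import Pool.Agent.H256R2.SC.R
import Pool.Agent.H256R2.SC.G1

set_option autoImplicit false
set_option linter.unusedVariables false

/-! # Choice of the classes for the small primes, sharp count of the survivors -/

namespace Pool.Agent.Y831.RC

open Finset Pool.Agent.H256R2.SC

open scoped Classical

/-- iterated logarithms are well separated -/
theorem ev4 (K : ℝ) : ∃ X₀ : ℝ, ∀ X : ℝ, X₀ ≤ X → 1 ≤ X ∧
    K ≤ Real.log (Real.log (Real.log (Real.log X))) ∧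
    K * Real.log (Real.log (Real.log (Real.log (Real.log X)))) ≤
      Real.log (Real.log (Real.log (Real.log X))) ∧
    K * Real.log (Real.log (Real.log (Real.log X))) ≤ Real.log (Real.log (Real.log X)) ∧
    K * Real.log (Real.log (Real.log X)) ≤ Real.log (Real.log X) ∧
    K * Real.log (Real.log X) ≤ Real.log X := by
  have t1 := Real.tendsto_log_atTop
  have t2 := t1.comp t1
  have t3 := t1.comp t2
  have t4 := t1.comp t3
  have hlin : ∀ᶠ x : ℝ in Filter.atTop, K * Real.log x ≤ x := by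
    have e1 : (fun x : ℝ => Real.log x) =o[Filter.atTop] (fun x : ℝ => x) :=
      Real.isLittleO_log_id_atTop
    have e2 := e1.def (show (0:ℝ) < 1 / (|K| + 1) by positivity)
    filter_upwards [e2, Filter.eventually_ge_atTop (1:ℝ)] with x hx hx1
    rw [Real.norm_eq_abs, Real.norm_eq_abs, abs_of_nonneg (Real.log_nonneg hx1),
      abs_of_nonneg (show (0:ℝ) ≤ x by linarith)] at hx
    rw [div_mul_eq_mul_div, one_mul, le_div_iff₀ (by positivity)] at hx
    have h1 := Real.log_nonneg hx1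
    have h2 : K * Real.log x ≤ |K| * Real.log x :=
      mul_le_mul_of_nonneg_right (le_abs_self K) h1
    linarith
  have h := (Filter.eventually_ge_atTop (1 : ℝ)).and ((t4.eventually_ge_atTop K).and
    ((t4.eventually hlin).and ((t3.eventually hlin).and ((t2.eventually hlin).and
      (t1.eventually hlin)))))
  obtain ⟨X₀, hX⟩ := Filter.eventually_atTop.1 h
  exact ⟨X₀, fun X hXX => hX X hXX⟩

section
variable {L l l3 l4 c ε ε₁ C n₀ : ℝ}

theorem s_pos {K : ℝ} (hK : 1 ≤ K) (h4 : K ≤ l4) (h3 : K * l4 ≤ l3) (h2 : K * l3 ≤ l)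
    (h1 : K * l ≤ L) : 1 ≤ l4 ∧ l4 ≤ l3 ∧ l3 ≤ l ∧ l ≤ L := by
  have a4 : 1 ≤ l4 := hK.trans h4
  have a3 : l4 ≤ l3 := by nlinarith
  have a2 : l3 ≤ l := by nlinarith
  have a1 : l ≤ L := by nlinarith
  exact ⟨a4, a3, a2, a1⟩

theorem s_logn (hL : 0 < L) (hl : l = Real.log L) (hl3 : l3 = Real.log l) (hl4 : l4 = Real.log l3)
    (pl : 0 < l) (pl3 : 0 < l3) (pl4 : 0 < l4) (hc : 0 < c)
    (hn : n₀ = c * (L * l ^ 2 * l4 / l3 ^ 2)) :
    Real.log n₀ = Real.log c + l + 2 * l3 + Real.log l4 - 2 * l4 := by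
  rw [hn, Real.log_mul hc.ne' (by positivity), Real.log_div (by positivity) (by positivity),
    Real.log_mul (by positivity) pl4.ne', Real.log_mul hL.ne' (by positivity), Real.log_pow,
    Real.log_pow, ← hl, ← hl3, ← hl4]
  push_cast
  ring

theorem s_N {K : ℝ} (hL : 0 < L) (hl : l = Real.log L) (hl3 : l3 = Real.log l)
    (hl4 : l4 = Real.log l3) (hK : 10 ≤ K) (hKc : 10 * |Real.log c| ≤ K) (h4 : K ≤ l4)
    (h5 : K * Real.log l4 ≤ l4) (h3 : K * l4 ≤ l3) (h2 : K * l3 ≤ l) (h1 : K * l ≤ L)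
    (hc : 0 < c) (hn : n₀ = c * (L * l ^ 2 * l4 / l3 ^ 2)) :
    2 ≤ n₀ ∧ l + 1 ≤ Real.log (⌊n₀⌋₊ : ℝ) ∧ Real.log (⌊n₀⌋₊ : ℝ) ≤ l + 2 * l3 ∧ L ≤ (⌊n₀⌋₊ : ℝ) := by
  obtain ⟨a4, a3, a2, a1⟩ := s_pos (by linarith : 1 ≤ K) h4 h3 h2 h1
  have pl4 : 0 < l4 := by linarith
  have pl3 : 0 < l3 := by linarith
  have pl : 0 < l := by linarith
  have hlog := s_logn hL hl hl3 hl4 pl pl3 pl4 hc hn
  have hn0 : 0 < n₀ := by rw [hn]; positivity
  have k1 := neg_abs_le (Real.log c)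
  have k2 := le_abs_self (Real.log c)
  have k3 : 10 * l4 ≤ l3 := (mul_le_mul_of_nonneg_right hK pl4.le).trans h3
  have k4 : 0 ≤ Real.log l4 := Real.log_nonneg a4
  have k5 : 10 * Real.log l4 ≤ l4 := (mul_le_mul_of_nonneg_right hK k4).trans h5
  have k6 : l + 2 ≤ Real.log n₀ := by rw [hlog]; linarith
  have k7 : 2 ≤ n₀ := by
    have : Real.exp 2 ≤ n₀ := by
      rw [← Real.exp_log hn0]
      exact Real.exp_le_exp.2 (by linarith)
    have h := Real.add_one_le_exp (2:ℝ)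
    linarith
  obtain ⟨f1, f2, f3, f4, f5, f6⟩ := floor_facts n₀ k7
  have f7 : 1 / (⌊n₀⌋₊ : ℝ) ≤ 1 := by
    rw [div_le_one (by
      have : (2:ℝ) ≤ ⌊n₀⌋₊ := by exact_mod_cast f1
      linarith)]
    have : (2:ℝ) ≤ ⌊n₀⌋₊ := by exact_mod_cast f1
    linarith
  have f8 : l + 1 ≤ Real.log (⌊n₀⌋₊ : ℝ) := by linarith
  refine ⟨k7, f8, ?_, ?_⟩
  · refine f4.trans ?_
    rw [hlog]
    linarith
  · have h2 : (0:ℝ) < ⌊n₀⌋₊ := by
      have : (2:ℝ) ≤ ⌊n₀⌋₊ := by exact_mod_cast f1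
      linarith
    rw [← Real.log_le_log_iff hL h2, ← hl]
    linarith

/-- the parameter `u` -/
theorem s_u {K Y u Z : ℝ} (hε : 0 < ε) (hε1 : ε ≤ 1 / 4) (hl4 : l4 = Real.log l3) (hK : 16 / ε ≤ K)
    (h4 : K ≤ l4)
    (h5 : K * Real.log l4 ≤ l4) (h3 : K * l4 ≤ l3) (h2 : K * l3 ≤ l)
    (hY1 : l ≤ Y) (hY2 : Y ≤ l + 2 * l3) (hZ : Z = (1 - ε) * l * l4 / l3) (hu : u = Y / Z) :
    0 < Z ∧ l3 / l4 ≤ u ∧ u ≤ 2 * l3 ∧ (1 + ε / 2) * l3 ≤ u * Real.log u := by
  have hK1 : 64 ≤ K := by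
    have : 64 ≤ 16 / ε := by rw [le_div_iff₀ hε]; linarith
    linarith
  have pl4 : 0 < l4 := by linarith
  have k1 : 64 * l4 ≤ l3 := (mul_le_mul_of_nonneg_right hK1 pl4.le).trans h3
  have pl3 : 0 < l3 := by linarith
  have k2 : 64 * l3 ≤ l := (mul_le_mul_of_nonneg_right hK1 pl3.le).trans h2
  have pl : 0 < l := by linarith
  have h1ε : 0 < 1 - ε := by linarith
  have hZ0 : 0 < Z := by rw [hZ]; positivity
  have hu1 : l3 / ((1 - ε) * l4) ≤ u := by
    rw [hu, le_div_iff₀ hZ0, hZ]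
    have : l3 / ((1 - ε) * l4) * ((1 - ε) * l * l4 / l3) = l := by field_simp
    rw [this]
    exact hY1
  have hu2 : l3 / l4 ≤ u := by
    refine le_trans ?_ hu1
    apply div_le_div_of_nonneg_left pl3.le (by positivity)
    nlinarith
  have hu3 : u ≤ 2 * l3 := by
    rw [hu, div_le_iff₀ hZ0, hZ]
    have : 2 * l3 * ((1 - ε) * l * l4 / l3) = 2 * (1 - ε) * l * l4 := by field_simp
    rw [this]
    have h6 : 3 / 2 * l ≤ 2 * (1 - ε) * l := by
      apply mul_le_mul_of_nonneg_right _ pl.le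
      linarith
    have h7 : 2 * (1 - ε) * l * 1 ≤ 2 * (1 - ε) * l * l4 := by
      apply mul_le_mul_of_nonneg_left _ (by positivity)
      linarith
    linarith
  refine ⟨hZ0, hu2, hu3, ?_⟩
  have hu0 : 0 < u := lt_of_lt_of_le (by positivity) hu2
  have hlogu : l4 - Real.log l4 ≤ Real.log u := by
    have : Real.log (l3 / l4) ≤ Real.log u := Real.log_le_log (by positivity) hu2
    rw [Real.log_div pl3.ne' pl4.ne', ← hl4] at this
    exact this
  have hll : Real.log l4 ≤ ε / 16 * l4 := by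
    have h6 : 0 ≤ Real.log l4 := Real.log_nonneg (by linarith)
    have h7 : 16 / ε * Real.log l4 ≤ l4 := (mul_le_mul_of_nonneg_right hK h6).trans h5
    rw [div_mul_eq_mul_div, div_le_iff₀ hε] at h7
    linarith
  have h8 : (1 - ε / 16) * l4 ≤ Real.log u := by linarith
  calc (1 + ε / 2) * l3 ≤ ((1 - ε / 16) / (1 - ε)) * l3 := by
        apply mul_le_mul_of_nonneg_right _ pl3.le
        rw [le_div_iff₀ h1ε]
        nlinarith
    _ = l3 / ((1 - ε) * l4) * ((1 - ε / 16) * l4) := by field_simp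
    _ ≤ u * Real.log u := mul_le_mul hu1 h8 (by
        apply mul_nonneg _ pl4.le
        linarith) hu0.le

/-- the sum over the large primes -/
theorem s_large {K Y Lx : ℝ} (hε : 0 < ε) (hε1 : ε ≤ 1 / 4) (hC : 0 ≤ C) (hK : 16 / ε ≤ K)
    (hKC : 4 / ε * (|Real.log ε₁| + C) ≤ K) (h4 : K ≤ l4) (h3 : K * l4 ≤ l3) (h2 : K * l3 ≤ l)
    (hY1 : l + 1 ≤ Y) (hY2 : Y ≤ l + 2 * l3) (hLx : Lx = l + Real.log ε₁) :
    0 < Lx ∧ Real.log (Y / Lx) + C / Lx ≤ (1 + ε) * (2 * l3 / l) := by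
  have hK1 : 64 ≤ K := by
    have : 64 ≤ 16 / ε := by rw [le_div_iff₀ hε]; linarith
    linarith
  have pl4 : 0 < l4 := by linarith
  have k1 : 64 * l4 ≤ l3 := (mul_le_mul_of_nonneg_right hK1 pl4.le).trans h3
  have pl3 : 0 < l3 := by linarith
  have k2 : 64 * l3 ≤ l := (mul_le_mul_of_nonneg_right hK1 pl3.le).trans h2
  have pl : 0 < l := by linarith
  have hKl3 : K ≤ l3 := by
    have : K * 1 ≤ K * l4 := mul_le_mul_of_nonneg_left (by linarith) (by linarith)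
    linarith
  have hE : |Real.log ε₁| + C ≤ ε / 4 * l3 := by
    have h7 := hKC.trans hKl3
    rw [div_mul_eq_mul_div, div_le_iff₀ hε] at h7
    linarith
  have k3 := neg_abs_le (Real.log ε₁)
  have k4 := le_abs_self (Real.log ε₁)
  have hLx1 : (1 - ε / 8) * l ≤ Lx := by
    rw [hLx]
    -- |log ε₁| ≤ ε/4 l3 ≤ ε/8 l
    have h8 : ε / 4 * l3 ≤ ε / 8 * l := by
      have : ε / 8 * (2 * l3) ≤ ε / 8 * l := mul_le_mul_of_nonneg_left (by linarith) (by positivity)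
      linarith
    linarith
  have hLx0 : 0 < Lx := lt_of_lt_of_le (by
    apply mul_pos _ pl
    linarith) hLx1
  refine ⟨hLx0, ?_⟩
  have h9 : Real.log (Y / Lx) ≤ Y / Lx - 1 := Real.log_le_sub_one_of_pos (by
    apply div_pos _ hLx0
    linarith)
  have h10 : Y / Lx - 1 + C / Lx = (Y - Lx + C) / Lx := by field_simp
  have h11 : Y - Lx + C ≤ (1 + ε / 8) * (2 * l3) := by
    rw [hLx]
    linarith
  calc Real.log (Y / Lx) + C / Lx ≤ (Y - Lx + C) / Lx := by linarith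
    _ ≤ (1 + ε / 8) * (2 * l3) / ((1 - ε / 8) * l) := by
        apply div_le_div₀ (by positivity) h11 (by
          apply mul_pos _ pl
          linarith) hLx1
    _ = ((1 + ε / 8) / (1 - ε / 8)) * (2 * l3 / l) := by
        have : 1 - ε / 8 ≠ 0 := by linarith
        field_simp
    _ ≤ (1 + ε) * (2 * l3 / l) := by
        apply mul_le_mul_of_nonneg_right _ (by positivity)
        rw [div_le_iff₀ (by linarith)]
        nlinarith

end

end Pool.Agent.Y831.RC
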