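import Pool.Agent.H256R2.SC.E

set_option autoImplicit false
set_option linter.unusedSectionVars false

/-! # The covering sieve with sharp constants: tail bound (Rankin's trick with a small exponent) -/

namespace Pool.Agent.Y831.RC

open Finset Pool.Agent.H256R2.SC

variable {n : ℕ} {κ : Type} [Fintype κ] [DecidableEq κ]

/-- Rankin weight with the exponent `η` -/
noncomputable def Ee (p : Fin n → ℝ) (z η : ℝ) (s : Finset (Fin n)) : ℝ :=
  Real.exp (η * (Real.log (∏ i ∈ s, p i) / Real.log z))

theorem exp_sub_one_le {η x : ℝ} (hη0 : 0 ≤ η) (hη1 : η ≤ 1) (hx0 : 0 ≤ x) (hx1 : x ≤ 1) :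
    Real.exp (η * x) - 1 ≤ η * (1 + η) * x := by
  have h0 : 0 ≤ η * x := mul_nonneg hη0 hx0
  have h1 : η * x ≤ 1 := mul_le_one₀ hη1 hx0 hx1
  have h := Real.abs_exp_sub_one_sub_id_le (x := η * x) (by rw [abs_of_nonneg h0]; exact h1)
  have h2 := (abs_le.1 h).2
  have h3 : (η * x) ^ 2 ≤ η ^ 2 * x := by
    have : x ^ 2 ≤ x := by nlinarith
    calc (η * x) ^ 2 = η ^ 2 * x ^ 2 := by ring
      _ ≤ η ^ 2 * x := mul_le_mul_of_nonneg_left this (sq_nonneg _)
  nlinarith

theorem tail_sharp {p g : Fin n → ℝ} {h : Finset (Fin n) → ℝ} {z K : ℝ} (H : Hyp p g h z K)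
    (η : ℝ) (hη0 : 0 < η) (hη1 : η ≤ 1) (Q' : ℝ) (hQ' : 0 < Q') :
    ∑ D : Col n κ with Q' < qq p D, (yy h D) ^ 2 * nu g D ≤
      Real.exp (η * ((1 + η) * (Fintype.card κ : ℝ) * K / Real.log z - Real.log Q' / Real.log z)) *
        Zs κ g h := by
  classical
  have hlz : 0 < Real.log z := Real.log_pos H.z1
  have hg : ∀ i, 0 ≤ g i := fun i => (H.g0 i).le
  have hp1 : ∀ s : Finset (Fin n), 1 ≤ ∏ i ∈ s, p i := fun s =>
    Finset.prod_induction _ (fun x => 1 ≤ x) (fun _ _ ha hb => one_le_mul_of_one_le_of_one_le ha hb)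
      le_rfl fun i _ => (H.p1 i).le
  have hlp : ∀ s : Finset (Fin n), 0 ≤ Real.log (∏ i ∈ s, p i) := fun s =>
    Real.log_nonneg (hp1 s)
  have he1 : ∀ s, 1 ≤ Ee p z η s := fun s =>
    Real.one_le_exp (mul_nonneg hη0.le (div_nonneg (hlp s) hlz.le))
  -- weights
  set W : Finset κ → κ → Finset (Fin n) → ℝ := fun T k s =>
    (al h s) ^ 2 * (if k ∈ T then Ee p z η s else 1) with hW
  have hW0 : ∀ T k s, 0 ≤ W T k s := by
    intro T k s
    simp only [hW]
    refine mul_nonneg (sq_nonneg _) ?_
    split_ifs
    · exact zero_le_one.trans (he1 s)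
    · exact zero_le_one
  set v : Finset (Fin n) → ℝ := fun s => (al h s) ^ 2 * (Ee p z η s - 1) with hv
  have hv0 : ∀ s, 0 ≤ v s := fun s => mul_nonneg (sq_nonneg _) (by linarith [he1 s])
  -- the cost of one colour
  have hcost : ∑ s : Finset (Fin n), (∏ i ∈ s, g i) * v s ≤ η * (1 + η) * K / Real.log z := by
    have hempty : ∀ s : Finset (Fin n), ¬ s.Nonempty → (∏ i ∈ s, g i) * v s = 0 := by
      intro s hs
      rw [Finset.not_nonempty_iff_eq_empty] at hs
      subst hs
      simp [hv, Ee]
    calc ∑ s : Finset (Fin n), (∏ i ∈ s, g i) * v s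
        = ∑ s : Finset (Fin n) with s.Nonempty, (∏ i ∈ s, g i) * v s := by
          rw [Finset.sum_filter]
          refine Finset.sum_congr rfl fun s _ => ?_
          split_ifs with hs
          · rfl
          · exact hempty s hs
      _ ≤ ∑ s : Finset (Fin n) with s.Nonempty,
            (η * (1 + η) / Real.log z) * ((h s) ^ 2 * (∏ i ∈ s, g i) * Real.log (∏ i ∈ s, p i)) := by
          refine Finset.sum_le_sum fun s hs => ?_
          have hsne : s ≠ ∅ := (mem_filter.mp hs).2.ne_empty
          have hal : (al h s) ^ 2 = (h s) ^ 2 := by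
            unfold al
            rw [if_neg hsne, neg_sq, mul_pow, ← pow_mul, mul_comm s.card 2, pow_mul]
            norm_num
          have hgs : 0 ≤ ∏ i ∈ s, g i := Finset.prod_nonneg fun i _ => hg i
          simp only [hv]
          rw [hal]
          by_cases hh : h s = 0
          · rw [hh]
            simp
          · have hz := H.supp s hh
            have hx0 : 0 ≤ Real.log (∏ i ∈ s, p i) / Real.log z := div_nonneg (hlp s) hlz.le
            have hx1 : Real.log (∏ i ∈ s, p i) / Real.log z ≤ 1 := by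
              rw [div_le_one hlz]
              exact Real.log_le_log (by linarith [hp1 s]) hz
            have hexp : Ee p z η s - 1 ≤ η * (1 + η) * (Real.log (∏ i ∈ s, p i) / Real.log z) := by
              unfold Ee
              exact exp_sub_one_le hη0.le hη1 hx0 hx1
            calc (∏ i ∈ s, g i) * ((h s) ^ 2 * (Ee p z η s - 1))
                ≤ (∏ i ∈ s, g i) * ((h s) ^ 2 *
                  (η * (1 + η) * (Real.log (∏ i ∈ s, p i) / Real.log z))) := by
                  gcongr
              _ = _ := by ring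
      _ = (η * (1 + η) / Real.log z) * ∑ s : Finset (Fin n) with s.Nonempty,
            (h s) ^ 2 * (∏ i ∈ s, g i) * Real.log (∏ i ∈ s, p i) := by
          rw [Finset.mul_sum]
      _ ≤ (η * (1 + η) / Real.log z) * K := by
          have := H.cost
          gcongr
      _ = η * (1 + η) * K / Real.log z := by ring
  set c0 : ℝ := η * (1 + η) * K / Real.log z with hc0
  have hc00 : 0 ≤ c0 := by
    have := H.K0
    rw [hc0]; positivity
  -- induction over the colours
  have hind : ∀ T : Finset κ, E_Z g (W T) ≤ (1 + c0) ^ T.card * E_Z g (W ∅) := by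
    intro T
    induction T using Finset.induction_on with
    | empty => simp
    | insert k T hkT ih =>
      have hupd : W (insert k T) = Function.update (W T) k (fun s => W T k s + v s) := by
        funext l s
        by_cases hl : l = k
        · subst hl
          simp only [Function.update_self, hW, hv, mem_insert_self, if_true, if_neg hkT]
          ring
        · rw [Function.update_of_ne hl]
          simp only [hW, mem_insert, hl, false_or]
      have hWk : W T k ∅ = 1 := by
        simp [hW, al, hkT]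
      have h1 := E_step hg (W T) (hW0 T) k hWk v hv0 _ hcost
      rw [hupd, Finset.card_insert_of_notMem hkT, pow_succ']
      refine h1.trans ?_
      rw [mul_assoc]
      exact mul_le_mul_of_nonneg_left ih (by linarith)
  have hZ0 : E_Z g (W ∅) = Zs κ g h := by
    unfold E_Z Zs
    refine Finset.sum_congr rfl fun D _ => ?_
    have : ∏ k, W ∅ k (fib D k) = (yy h D) ^ 2 := by
      unfold yy
      rw [← Finset.prod_pow]
      refine Finset.prod_congr rfl fun k _ => ?_
      simp [hW]
    rw [this]
    ring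
  have hZs0 : 0 ≤ Zs κ g h := by
    unfold Zs
    exact Finset.sum_nonneg fun D _ => mul_nonneg (sq_nonneg _) (E_nu_nonneg hg D)
  have hZu : E_Z g (W univ) = ∑ D : Col n κ,
      (yy h D) ^ 2 * nu g D * Real.exp (η * (Real.log (qq p D) / Real.log z)) := by
    unfold E_Z
    refine Finset.sum_congr rfl fun D _ => ?_
    have h1 : ∏ k, W univ k (fib D k) =
        (yy h D) ^ 2 * Real.exp (η * (Real.log (qq p D) / Real.log z)) := by
      have h2 : ∀ k, W univ k (fib D k) = (al h (fib D k)) ^ 2 * Ee p z η (fib D k) := by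
        intro k
        simp [hW]
      simp_rw [h2]
      rw [Finset.prod_mul_distrib]
      unfold yy
      rw [Finset.prod_pow]
      congr 1
      unfold Ee
      rw [← Real.exp_sum, ← Finset.mul_sum, ← Finset.sum_div, E_qq, Real.log_prod]
      intro k _
      have := hp1 (fib D k)
      linarith
    rw [h1]
    ring
  have hu := hind univ
  rw [hZ0, hZu, Finset.card_univ] at hu
  -- Rankin
  have hR : ∑ D : Col n κ with Q' < qq p D, (yy h D) ^ 2 * nu g D ≤
      Real.exp (-(η * (Real.log Q' / Real.log z))) * ∑ D : Col n κ,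
        (yy h D) ^ 2 * nu g D * Real.exp (η * (Real.log (qq p D) / Real.log z)) := by
    rw [Finset.mul_sum]
    refine le_trans ?_ (Finset.sum_le_sum_of_subset_of_nonneg
      (Finset.filter_subset (fun D : Col n κ => Q' < qq p D) univ)
      fun D _ _ => mul_nonneg (Real.exp_pos _).le
        (mul_nonneg (mul_nonneg (sq_nonneg _) (E_nu_nonneg hg D)) (Real.exp_pos _).le))
    refine Finset.sum_le_sum fun D hD => ?_
    have hQD : Q' < qq p D := (mem_filter.mp hD).2
    have h1 : 1 ≤ Real.exp (-(η * (Real.log Q' / Real.log z))) *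
        Real.exp (η * (Real.log (qq p D) / Real.log z)) := by
      rw [← Real.exp_add]
      apply Real.one_le_exp
      rw [neg_add_eq_sub, ← mul_sub, ← sub_div]
      apply mul_nonneg hη0.le
      apply div_nonneg _ hlz.le
      linarith [Real.log_le_log hQ' hQD.le]
    have h2 : 0 ≤ (yy h D) ^ 2 * nu g D := mul_nonneg (sq_nonneg _) (E_nu_nonneg hg D)
    calc (yy h D) ^ 2 * nu g D = (yy h D) ^ 2 * nu g D * 1 := (mul_one _).symm
      _ ≤ (yy h D) ^ 2 * nu g D * (Real.exp (-(η * (Real.log Q' / Real.log z))) *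
          Real.exp (η * (Real.log (qq p D) / Real.log z))) := mul_le_mul_of_nonneg_left h1 h2
      _ = _ := by ring
  have hpow : (1 + c0) ^ Fintype.card κ ≤
      Real.exp (η * ((1 + η) * (Fintype.card κ : ℝ) * K / Real.log z)) := by
    calc (1 + c0) ^ Fintype.card κ
        ≤ (Real.exp c0) ^ Fintype.card κ := by
          refine pow_le_pow_left₀ (by linarith) ?_ _
          rw [add_comm]
          exact Real.add_one_le_exp _
      _ = _ := by
          rw [← Real.exp_nat_mul, hc0]
          congr 1
          ring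
  calc ∑ D : Col n κ with Q' < qq p D, (yy h D) ^ 2 * nu g D
      ≤ _ := hR
    _ ≤ Real.exp (-(η * (Real.log Q' / Real.log z))) *
        ((1 + c0) ^ Fintype.card κ * Zs κ g h) :=
        mul_le_mul_of_nonneg_left hu (Real.exp_pos _).le
    _ ≤ Real.exp (-(η * (Real.log Q' / Real.log z))) *
        (Real.exp (η * ((1 + η) * (Fintype.card κ : ℝ) * K / Real.log z)) * Zs κ g h) :=
        mul_le_mul_of_nonneg_left (mul_le_mul_of_nonneg_right hpow hZs0) (Real.exp_pos _).le
    _ = _ := by
        rw [← mul_assoc, ← Real.exp_add]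
        congr 2
        ring

/-- the number of assignments of bounded size, with an exponent `s` close to `1` -/
theorem count_sharp (p : Fin n → ℝ) (hp : ∀ i, 1 ≤ p i) (s : ℝ) (hs : 0 < s) (Q : ℝ) (hQ : 0 < Q) :
    ∑ D : Col n κ with qq p D ≤ Q, (2 : ℝ) ^ (univ.filter (fun i => D i ≠ none)).card ≤
      Q ^ s * Real.exp (2 * (Fintype.card κ : ℝ) * ∑ i, 1 / (p i) ^ s) := by
  have hp0 : ∀ i, 0 < p i := fun i => lt_of_lt_of_le one_pos (hp i)
  have hnu : ∀ i (c : Option κ), 1 ≤ nu1 (p i) c := by
    intro i c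
    cases c with
    | none => simp [nu1]
    | some k => simpa [nu1] using hp i
  have hqq : ∀ D : Col n κ, 0 < qq p D := fun D =>
    Finset.prod_pos fun i _ => lt_of_lt_of_le one_pos (hnu i _)
  set φ : Fin n → Option κ → ℝ := fun i c => (if c ≠ none then 2 else 1) / (nu1 (p i) c) ^ s
    with hφ
  have hterm : ∀ D : Col n κ, (2 : ℝ) ^ (univ.filter (fun i => D i ≠ none)).card *
      (Q / qq p D) ^ s = Q ^ s * ∏ i, φ i (D i) := by
    intro D
    have h2 : (2 : ℝ) ^ (univ.filter (fun i => D i ≠ none)).card =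
        ∏ i, (if D i ≠ none then (2 : ℝ) else 1) := by
      rw [Finset.prod_ite]
      simp
    simp only [hφ]
    rw [Finset.prod_div_distrib, ← h2, Real.finsetProd_rpow _ _ (fun i _ =>
      (zero_le_one.trans (hnu i _))), ← qq, Real.div_rpow hQ.le (hqq D).le]
    ring
  have hnn : ∀ D : Col n κ, 0 ≤ (2 : ℝ) ^ (univ.filter (fun i => D i ≠ none)).card *
      (Q / qq p D) ^ s := fun D =>
    mul_nonneg (by positivity) (Real.rpow_nonneg (div_nonneg hQ.le (hqq D).le) _)
  calc ∑ D : Col n κ with qq p D ≤ Q, (2 : ℝ) ^ (univ.filter (fun i => D i ≠ none)).card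
      ≤ ∑ D : Col n κ with qq p D ≤ Q, (2 : ℝ) ^ (univ.filter (fun i => D i ≠ none)).card *
          (Q / qq p D) ^ s := by
        apply Finset.sum_le_sum
        intro D hD
        have hD' : qq p D ≤ Q := (Finset.mem_filter.mp hD).2
        have h1 : 1 ≤ Q / qq p D := (one_le_div (hqq D)).mpr hD'
        have h2 : (1 : ℝ) ≤ (Q / qq p D) ^ s := Real.one_le_rpow h1 hs.le
        exact le_mul_of_one_le_right (by positivity) h2
    _ ≤ ∑ D : Col n κ, (2 : ℝ) ^ (univ.filter (fun i => D i ≠ none)).card *
          (Q / qq p D) ^ s :=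
        Finset.sum_le_sum_of_subset_of_nonneg (Finset.filter_subset _ _) fun D _ _ => hnn D
    _ = Q ^ s * ∏ i, ∑ c, φ i c := by
        rw [Finset.prod_univ_sum, Fintype.piFinset_univ, Finset.mul_sum]
        exact Finset.sum_congr rfl fun D _ => hterm D
    _ ≤ Q ^ s * ∏ i, Real.exp (2 * (Fintype.card κ : ℝ) * (1 / (p i) ^ s)) := by
        apply mul_le_mul_of_nonneg_left _ (Real.rpow_nonneg hQ.le _)
        apply Finset.prod_le_prod
        · intro i _
          apply Finset.sum_nonneg
          intro c _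
          simp only [hφ]
          have := Real.rpow_nonneg (zero_le_one.trans (hnu i c)) s
          split_ifs <;> positivity
        · intro i _
          have : ∑ c, φ i c = 1 + 2 * (Fintype.card κ : ℝ) * (1 / (p i) ^ s) := by
            rw [Fintype.sum_option]
            simp [hφ, nu1]
            ring
          rw [this, add_comm]
          exact Real.add_one_le_exp _
    _ = Q ^ s * Real.exp (2 * (Fintype.card κ : ℝ) * ∑ i, 1 / (p i) ^ s) := by
        rw [← Real.exp_sum, Finset.mul_sum]

end Pool.Agent.Y831.RC
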